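import Pool.Agent.Lib.Sieve.Fundamental

/-!
# Mertens type upper bound and averages of multiplicative functions
-/

namespace Pool.Agent.Lib.Sieve

open Finset

/-- The reciprocal map as a monoid homomorphism. -/
noncomputable def recHom : ℕ →* ℝ :=
  (invMonoidHom : ℝ →* ℝ).comp (Nat.castRingHom ℝ : ℕ →* ℝ)

theorem recHom_apply (m : ℕ) : recHom m = (m : ℝ)⁻¹ := rfl

/-- `∏_{p ≤ z} (1 - 1/p) ≤ 1 / log z`. -/
theorem prod_one_sub_inv_le (z : ℕ) (hz : 2 ≤ z) :
    ∏ p ∈ primesUpTo z, (1 - 1 / (p : ℝ)) ≤ 1 / Real.log z := by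
  have hz' : (2 : ℝ) ≤ z := by exact_mod_cast hz
  have hlog : 0 < Real.log z := Real.log_pos (by linarith)
  have hnorm : ∀ {p : ℕ}, p.Prime → ‖recHom p‖ < 1 := by
    intro p hp
    rw [recHom_apply, norm_inv, Real.norm_natCast]
    apply inv_lt_one_of_one_lt₀
    exact_mod_cast hp.one_lt
  have h1 := EulerProduct.summable_and_hasSum_smoothNumbers_prod_primesBelow_geometric
    (f := recHom) hnorm (z + 1)
  obtain ⟨hsum, hhas⟩ := h1
  have h2 : ∏ p ∈ (z + 1).primesBelow, (1 - recHom p)⁻¹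
      = (∏ p ∈ primesUpTo z, (1 - 1 / (p : ℝ)))⁻¹ := by
    rw [← Finset.prod_inv_distrib]
    refine Finset.prod_congr rfl fun p _ => ?_
    rw [recHom_apply, one_div]
  rw [h2] at hhas
  -- the sum over `1 ≤ m ≤ z`
  have h3 : ∑ m ∈ Finset.Icc 1 z, ((m : ℝ)⁻¹)
      ≤ (∏ p ∈ primesUpTo z, (1 - 1 / (p : ℝ)))⁻¹ := by
    let s : Finset (Nat.smoothNumbers (z + 1)) :=
      (Finset.Icc 1 z).attach.map ⟨fun m => ⟨m.1, by
        have hm := Finset.mem_Icc.mp m.2
        exact Nat.mem_smoothNumbers_of_lt (by omega) (by omega)⟩, fun a b hab => by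
        apply Subtype.ext
        exact congrArg (fun x => x.1) hab⟩
    have h4 := sum_le_hasSum s (fun i _ => by
      rw [recHom_apply]
      positivity) hhas
    refine le_trans (le_of_eq ?_) h4
    rw [Finset.sum_map]
    simp only [Function.Embedding.coeFn_mk, recHom_apply]
    exact (Finset.sum_attach (Finset.Icc 1 z) fun m => ((m : ℝ)⁻¹)).symm
  have h5 : Real.log z ≤ ∑ m ∈ Finset.Icc 1 z, ((m : ℝ)⁻¹) := by
    have h6 := log_add_one_le_harmonic z
    rw [harmonic_eq_sum_Icc] at h6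
    push_cast at h6
    refine le_trans ?_ h6
    apply Real.log_le_log (by linarith)
    linarith
  have hpos : 0 < ∏ p ∈ primesUpTo z, (1 - 1 / (p : ℝ)) := by
    apply Finset.prod_pos
    intro p hp
    have hp1 : (1 : ℝ) < p := by exact_mod_cast (mem_primesUpTo.mp hp).1.one_lt
    rw [sub_pos, div_lt_one (by linarith)]
    exact hp1
  have h7 : Real.log z ≤ (∏ p ∈ primesUpTo z, (1 - 1 / (p : ℝ)))⁻¹ := h5.trans h3
  rw [le_div_iff₀ hlog]
  have h8 := mul_le_mul_of_nonneg_left h7 hpos.le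
  rwa [mul_inv_cancel₀ hpos.ne'] at h8

/-- Average of a product over the prime factors. -/
theorem sum_prod_primeFactors_le (h : ℕ → ℝ) (h0 : ∀ p, 0 ≤ h p) (N : ℕ) :
    ∑ m ∈ Finset.Icc 1 N, ∏ p ∈ m.primeFactors, (1 + h p)
      ≤ N * ∏ p ∈ primesUpTo N, (1 + h p / p) := by
  have hD0 : ∀ D : Finset ℕ, 0 ≤ ∏ p ∈ D, h p := fun D => Finset.prod_nonneg fun p _ => h0 p
  have h1 : ∀ m ∈ Finset.Icc 1 N, ∏ p ∈ m.primeFactors, (1 + h p)
      ≤ ∑ D ∈ (primesUpTo N).powerset, if (∏ p ∈ D, p) ∣ m then ∏ p ∈ D, h p else 0 := by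
    intro m hm
    rw [Finset.mem_Icc] at hm
    rw [Finset.prod_one_add, ← Finset.sum_filter]
    apply Finset.sum_le_sum_of_subset_of_nonneg
    · intro D hD
      rw [Finset.mem_powerset] at hD
      rw [Finset.mem_filter, Finset.mem_powerset]
      refine ⟨fun p hp => ?_, ?_⟩
      · have hpm := Nat.mem_primeFactors.mp (hD hp)
        rw [mem_primesUpTo]
        exact ⟨hpm.1, (Nat.le_of_dvd (by omega) hpm.2.1).trans hm.2⟩
      · exact (Finset.prod_dvd_prod_of_subset _ _ _ hD).trans (Nat.prod_primeFactors_dvd m)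
    · intro D _ _
      exact hD0 D
  refine (Finset.sum_le_sum h1).trans ?_
  rw [Finset.sum_comm, Finset.prod_one_add, Finset.mul_sum]
  refine Finset.sum_le_sum fun D hD => ?_
  rw [Finset.mem_powerset] at hD
  rw [← Finset.sum_filter, Finset.sum_const, nsmul_eq_mul]
  set d := ∏ p ∈ D, p with hd
  have hdpos : 0 < d := Finset.prod_pos fun p hp => (mem_primesUpTo.mp (hD hp)).1.pos
  have hcard : (((Finset.Icc 1 N).filter (fun m => d ∣ m)).card : ℝ) ≤ N / d := by
    have h2 : ((Finset.Icc 1 N).filter (fun m => d ∣ m)).card = N / d := by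
      have := Nat.Ioc_filter_dvd_card_eq_div N d
      rw [← this]
      congr 1
    rw [h2]
    exact Nat.cast_div_le
  rw [Finset.prod_div_distrib]
  have hdr : (∏ p ∈ D, (p : ℝ)) = d := by
    rw [hd]
    push_cast
    rfl
  rw [hdr]
  calc (((Finset.Icc 1 N).filter (fun m => d ∣ m)).card : ℝ) * ∏ p ∈ D, h p
      ≤ (N / d) * ∏ p ∈ D, h p := mul_le_mul_of_nonneg_right hcard (hD0 D)
    _ = N * ((∏ p ∈ D, h p) / d) := by ring

/-- If `h p ≤ H / p` then the average of `∏_{p ∣ m} (1 + h p)` is bounded. -/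
theorem sum_prod_primeFactors_le' (H : ℝ) (hH : 0 ≤ H) (h : ℕ → ℝ) (h0 : ∀ p, 0 ≤ h p)
    (h1 : ∀ p, p.Prime → h p ≤ H / p) (N : ℕ) :
    ∑ m ∈ Finset.Icc 1 N, ∏ p ∈ m.primeFactors, (1 + h p)
      ≤ N * Real.exp (H * ∑' n : ℕ, 1 / (n : ℝ) ^ 2) := by
  refine (sum_prod_primeFactors_le h h0 N).trans ?_
  apply mul_le_mul_of_nonneg_left _ (Nat.cast_nonneg _)
  have hs : Summable fun n : ℕ => 1 / (n : ℝ) ^ 2 := Real.summable_one_div_nat_pow.mpr (by norm_num)
  calc ∏ p ∈ primesUpTo N, (1 + h p / p)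
      ≤ Real.exp (∑ p ∈ primesUpTo N, h p / p) := prod_one_add_le fun p _ => by
        have := h0 p
        positivity
    _ ≤ Real.exp (H * ∑' n : ℕ, 1 / (n : ℝ) ^ 2) := by
        apply Real.exp_le_exp.mpr
        calc ∑ p ∈ primesUpTo N, h p / p ≤ ∑ p ∈ primesUpTo N, H * (1 / (p : ℝ) ^ 2) := by
              refine Finset.sum_le_sum fun p hp => ?_
              have hp' := (mem_primesUpTo.mp hp).1
              have hp0 : (0 : ℝ) < p := by exact_mod_cast hp'.pos
              calc h p / p ≤ (H / p) / p := div_le_div_of_nonneg_right (h1 p hp') hp0.le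
                _ = H * (1 / (p : ℝ) ^ 2) := by
                  field_simp
          _ = H * ∑ p ∈ primesUpTo N, 1 / (p : ℝ) ^ 2 := by rw [Finset.mul_sum]
          _ ≤ H * ∑' n : ℕ, 1 / (n : ℝ) ^ 2 := by
              apply mul_le_mul_of_nonneg_left _ hH
              exact hs.sum_le_tsum _ fun i _ => by positivity

end Pool.Agent.Lib.Sieve
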