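import Pool.Agent.Lib.Sieve.Fundamental

/-!
# Existence of integers avoiding residue classes (lower bound sieve)
-/

namespace Pool.Agent.Lib.Sieve

open Finset

/-- The product `∏ (1 - chi)` is the indicator of avoiding all classes. -/
theorem prod_one_sub_chi (Ω : (p : ℕ) → Finset (ZMod p)) (P : Finset ℕ) (u : ℤ) :
    ∏ p ∈ P, (1 - chi Ω p u) = if ∀ p ∈ P, (u : ZMod p) ∉ Ω p then 1 else 0 := by
  classical
  by_cases h : ∀ p ∈ P, (u : ZMod p) ∉ Ω p
  · rw [if_pos h]
    apply Finset.prod_eq_one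
    intro p hp
    unfold chi
    rw [if_neg (h p hp)]
    ring
  · rw [if_neg h]
    push Not at h
    obtain ⟨p, hp, hu⟩ := h
    apply Finset.prod_eq_zero hp
    unfold chi
    rw [if_pos hu]
    ring

/-- Chinese remainder theorem: an integer avoiding one class modulo each small prime. -/
theorem exists_crt (P : Finset ℕ) (hP : ∀ p ∈ P, p.Prime) (r : (p : ℕ) → ZMod p) :
    ∃ c : ℤ, ∀ p ∈ P, (c : ZMod p) = r p := by
  set q := ∏ p ∈ P, p with hq
  have hq0 : 0 < q := Finset.prod_pos fun p hp => (hP p hp).pos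
  have h := count_classes' (fun p => {r p}) 0 (2 * q) P hP
  simp only [Finset.card_singleton, Nat.cast_one, Finset.prod_const_one] at h
  have h1 : ∏ p ∈ P, (1 : ℝ) / p = 1 / q := by
    rw [Finset.prod_div_distrib, hq]
    push_cast
    simp
  rw [h1] at h
  have hq' : (q : ℝ) ≠ 0 := by
    have : q ≠ 0 := hq0.ne'
    exact_mod_cast this
  have h2 : ((2 * q : ℕ) : ℝ) * (1 / q) = 2 := by
    push_cast
    field_simp
  rw [h2] at h
  have h3 := (abs_le.mp h).1
  have h4 : 0 < ∑ u ∈ Finset.Ico (0 : ℤ) (0 + (2 * q : ℕ)), ∏ p ∈ P, chi (fun p => {r p}) p u := by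
    linarith
  obtain ⟨u, _, hu⟩ := Finset.exists_lt_of_sum_lt (f := fun _ => (0 : ℝ)) (by simpa using h4)
  refine ⟨u, fun p hp => ?_⟩
  by_contra hne
  have : ∏ p ∈ P, chi (fun p => {r p}) p u = 0 := by
    apply Finset.prod_eq_zero hp
    unfold chi
    rw [if_neg]
    simpa using hne
  linarith

/-- **Existence form of the lower bound sieve.**  For every `k` there is `K` such that every
interval of at least `z ^ K` consecutive integers contains an integer avoiding, for every prime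
`p ≤ z`, the prescribed classes `Ω p` (at most `k` of them, and not all of them). -/
theorem exists_avoid (k : ℕ) : ∃ K : ℕ, ∀ z : ℕ, 2 ≤ z → ∀ Ω : (p : ℕ) → Finset (ZMod p),
    (∀ p, p.Prime → p ≤ z → (Ω p).card ≤ k ∧ (Ω p).card < p) →
    ∀ (a : ℤ) (M : ℕ), z ^ K ≤ M →
      ∃ u : ℤ, a ≤ u ∧ u < a + M ∧ ∀ p, p.Prime → p ≤ z → (u : ZMod p) ∉ Ω p := by
  refine ⟨198 * k + 26 + 2 * (2 * k + 2), ?_⟩
  intro z hz Ω hΩ a M hM
  -- residues avoiding the classes modulo the small primes
  have hres : ∀ p : ℕ, ∃ r : ZMod p, p.Prime → p ≤ z → r ∉ Ω p := by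
    intro p
    by_cases hp : p.Prime ∧ p ≤ z
    · have : Fact p.Prime := ⟨hp.1⟩
      have h := (hΩ p hp.1 hp.2).2
      have hex : ∃ r : ZMod p, r ∉ Ω p := by
        by_contra hcon
        push Not at hcon
        have : Ω p = Finset.univ := Finset.eq_univ_iff_forall.mpr hcon
        rw [this, Finset.card_univ, ZMod.card] at h
        exact lt_irrefl _ h
      obtain ⟨r, hr⟩ := hex
      exact ⟨r, fun _ _ => hr⟩
    · exact ⟨0, fun h1 h2 => absurd ⟨h1, h2⟩ hp⟩
  choose r hr using hres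
  set w := 2 * k + 2 with hw
  set P0 := (primesUpTo w).filter (fun p => p ≤ z) with hP0
  have hP0p : ∀ p ∈ P0, p.Prime := fun p hp => (mem_primesUpTo.mp (Finset.mem_filter.mp hp).1).1
  obtain ⟨c, hc⟩ := exists_crt P0 hP0p r
  set q := ∏ p ∈ P0, p with hq
  have hq0 : 0 < q := Finset.prod_pos fun p hp => (hP0p p hp).pos
  have hq4 : q ≤ 4 ^ w := by
    calc q ≤ ∏ p ∈ primesUpTo w, p := by
          apply Finset.prod_le_prod_of_subset_of_one_le' (Finset.filter_subset _ _)
          intro p hp _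
          exact (mem_primesUpTo.mp hp).1.one_le
      _ ≤ 4 ^ w := primorial_le_four_pow w
  -- the transformed classes
  let Ω' : (p : ℕ) → Finset (ZMod p) := fun p =>
    (Ω p).image (fun x => (x - (c : ZMod p)) * (q : ZMod p)⁻¹)
  have hΩ' : ∀ p, p.Prime → 2 * k + 2 < p → p ≤ z → (Ω' p).card ≤ k := by
    intro p hp _ hpz
    exact (Finset.card_image_le).trans (hΩ p hp hpz).1
  -- the new interval
  set a' : ℤ := ⌈((a - c : ℤ) : ℚ) / q⌉ with ha'
  set M' : ℕ := M / q with hM'
  have hzw : 4 ^ w ≤ z ^ (2 * w) := by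
    calc 4 ^ w = 2 ^ (2 * w) := by rw [pow_mul]; norm_num
      _ ≤ z ^ (2 * w) := Nat.pow_le_pow_left hz _
  have hM'K : z ^ (198 * k + 26) ≤ M' := by
    rw [hM', Nat.le_div_iff_mul_le hq0]
    calc z ^ (198 * k + 26) * q ≤ z ^ (198 * k + 26) * z ^ (2 * w) :=
          Nat.mul_le_mul_left _ (hq4.trans hzw)
      _ = z ^ (198 * k + 26 + 2 * (2 * k + 2)) := by rw [← pow_add]
      _ ≤ M := hM
  have hfund := (fundamental_sum hz hΩ' a' M' hM'K).1
  have hpos : 0 < (M' : ℝ) / 4 * ∏ p ∈ sprimes (2 * k + 2) z, (1 - dens Ω' p) := by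
    apply mul_pos
    · have : 0 < M' := lt_of_lt_of_le (by positivity) hM'K
      positivity
    · apply Finset.prod_pos
      intro p hp
      have h := mem_sprimes.mp hp
      have := dens_le_half (hΩ' p h.1 h.2.1 h.2.2) h.2.1
      linarith
  have hsum : 0 < ∑ u ∈ Finset.Ico a' (a' + M'), ∏ p ∈ sprimes (2 * k + 2) z, (1 - chi Ω' p u) := by
    linarith
  obtain ⟨v, hv, hvpos⟩ := Finset.exists_lt_of_sum_lt (f := fun _ => (0 : ℝ))
    (by simpa using hsum)
  rw [prod_one_sub_chi] at hvpos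
  have hv' : ∀ p ∈ sprimes (2 * k + 2) z, (v : ZMod p) ∉ Ω' p := by
    by_contra hcon
    rw [if_neg hcon] at hvpos
    exact lt_irrefl _ hvpos
  rw [Finset.mem_Ico] at hv
  have hqQ : (0 : ℚ) < q := by exact_mod_cast hq0
  refine ⟨c + q * v, ?_, ?_, ?_⟩
  · -- lower end
    have h1 : ((a - c : ℤ) : ℚ) / q ≤ v := by
      have h2 := Int.le_ceil (((a - c : ℤ) : ℚ) / q)
      have h3 : ((a' : ℤ) : ℚ) ≤ v := by exact_mod_cast hv.1
      exact h2.trans h3
    rw [div_le_iff₀ hqQ] at h1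
    have h4 : (a - c : ℤ) ≤ v * q := by exact_mod_cast h1
    linarith
  · -- upper end
    have h1 : (v : ℚ) + 1 ≤ a' + M' := by
      have : v + 1 ≤ a' + M' := hv.2
      exact_mod_cast this
    have h2 : ((a' : ℤ) : ℚ) < ((a - c : ℤ) : ℚ) / q + 1 := Int.ceil_lt_add_one _
    have h3 : (v : ℚ) < ((a - c : ℤ) : ℚ) / q + M' := by linarith
    have h4 : (v : ℚ) * q < (a - c : ℤ) + M' * q := by
      have := mul_lt_mul_of_pos_right h3 hqQ
      rw [add_mul, div_mul_cancel₀ _ hqQ.ne'] at this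
      exact this
    have h5 : (M' : ℚ) * q ≤ M := by
      have : M' * q ≤ M := Nat.div_mul_le_self M q
      exact_mod_cast this
    have h6 : (v : ℚ) * q < (a - c : ℤ) + M := by linarith
    have h7 : v * q < (a - c : ℤ) + M := by exact_mod_cast h6
    linarith
  · intro p hp hpz
    have : Fact p.Prime := ⟨hp⟩
    by_cases hpw : p ≤ w
    · have hpP0 : p ∈ P0 := by
        rw [hP0, Finset.mem_filter, mem_primesUpTo]
        exact ⟨⟨hp, hpw⟩, hpz⟩
      have hqp : (q : ZMod p) = 0 := by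
        rw [ZMod.natCast_eq_zero_iff]
        exact Finset.dvd_prod_of_mem _ hpP0
      push_cast
      rw [hqp, zero_mul, add_zero, hc p hpP0]
      exact hr p hp hpz
    · push Not at hpw
      have hqp : (q : ZMod p) ≠ 0 := by
        intro h0
        rw [ZMod.natCast_eq_zero_iff] at h0
        obtain ⟨s, hs, hsd⟩ := (Prime.dvd_finsetProd_iff hp.prime _).mp h0
        have hsP := Finset.mem_filter.mp hs
        have hs' := mem_primesUpTo.mp hsP.1
        have := (Nat.prime_dvd_prime_iff_eq hp hs'.1).mp hsd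
        omega
      intro hin
      apply hv' p (mem_sprimes.mpr ⟨hp, hpw, hpz⟩)
      simp only [Ω', Finset.mem_image]
      refine ⟨_, hin, ?_⟩
      push_cast
      field_simp
      ring

end Pool.Agent.Lib.Sieve

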