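import Mathlib

/-!
# Elementary bounds for sums over primes
-/

namespace Pool.Agent.Lib.Sieve

open Finset

/-- The primes `p ≤ n`. -/
def primesUpTo (n : ℕ) : Finset ℕ := (Finset.range (n + 1)).filter Nat.Prime

theorem mem_primesUpTo {n p : ℕ} : p ∈ primesUpTo n ↔ p.Prime ∧ p ≤ n := by
  simp [primesUpTo, and_comm]

theorem prod_pow_dvd_factorial (n : ℕ) : ∏ p ∈ primesUpTo n, p ^ (n / p) ∣ n.factorial := by
  apply Finset.prod_dvd_of_isRelPrime
  · intro p hp q hq hpq
    have hp' := (mem_primesUpTo.mp hp).1
    have hq' := (mem_primesUpTo.mp hq).1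
    exact Nat.coprime_iff_isRelPrime.mp (((Nat.coprime_primes hp' hq').mpr hpq).pow _ _)
  · intro p hp
    have hp' := (mem_primesUpTo.mp hp)
    have h1 : p ^ (n / p) ∣ (p * (n / p)).factorial := by
      have : ∀ m : ℕ, p ^ m ∣ (p * m).factorial := by
        intro m
        induction m with
        | zero => simp
        | succ m ih =>
          rw [pow_succ, Nat.mul_succ]
          have h2 : (p * m + p).factorial = (p * m + p) * (p * m + p - 1).factorial := by
            rw [Nat.mul_factorial_pred]
            have := hp'.1.pos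
            omega
          rw [h2, mul_comm (p ^ m) p]
          apply Nat.mul_dvd_mul
          · exact Dvd.intro (m + 1) (by ring)
          · refine ih.trans (Nat.factorial_dvd_factorial ?_)
            have := hp'.1.pos
            omega
      exact this _
    exact h1.trans (Nat.factorial_dvd_factorial (Nat.mul_div_le n p))

/-- `∑_{p ≤ n} (log p) / p ≤ log n + log 4`. -/
theorem sum_log_div_le (n : ℕ) (hn : 1 ≤ n) :
    ∑ p ∈ primesUpTo n, Real.log p / p ≤ Real.log n + Real.log 4 := by
  have hn' : (0 : ℝ) < n := by exact_mod_cast hn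
  -- logarithm of the divisibility
  have h1 : ∏ p ∈ primesUpTo n, p ^ (n / p) ≤ n ^ n :=
    (Nat.le_of_dvd (Nat.factorial_pos n) (prod_pow_dvd_factorial n)).trans
      (Nat.factorial_le_pow n)
  have h2 : ∑ p ∈ primesUpTo n, ((n / p : ℕ) : ℝ) * Real.log p ≤ n * Real.log n := by
    have h3 : Real.log ((∏ p ∈ primesUpTo n, p ^ (n / p) : ℕ) : ℝ) ≤ Real.log ((n ^ n : ℕ) : ℝ) := by
      apply Real.log_le_log
      · have : 0 < ∏ p ∈ primesUpTo n, p ^ (n / p) := by
          apply Finset.prod_pos
          intro p hp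
          exact pow_pos (mem_primesUpTo.mp hp).1.pos _
        exact_mod_cast this
      · exact_mod_cast h1
    rw [Nat.cast_prod, Real.log_prod] at h3
    · push_cast at h3
      rw [Real.log_pow] at h3
      refine le_trans (le_of_eq ?_) h3
      refine Finset.sum_congr rfl fun p _ => ?_
      rw [Real.log_pow]
    · intro p hp
      have := (mem_primesUpTo.mp hp).1.pos
      positivity
  have h4 : ∑ p ∈ primesUpTo n, Real.log p ≤ n * Real.log 4 := by
    have h5 : ∏ p ∈ primesUpTo n, p ≤ 4 ^ n := primorial_le_four_pow n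
    have h6 : Real.log ((∏ p ∈ primesUpTo n, p : ℕ) : ℝ) ≤ Real.log ((4 ^ n : ℕ) : ℝ) := by
      apply Real.log_le_log
      · have : 0 < ∏ p ∈ primesUpTo n, p := by
          apply Finset.prod_pos
          intro p hp
          exact (mem_primesUpTo.mp hp).1.pos
        exact_mod_cast this
      · exact_mod_cast h5
    rw [Nat.cast_prod, Real.log_prod] at h6
    · push_cast at h6
      rwa [Real.log_pow] at h6
    · intro p hp
      have := (mem_primesUpTo.mp hp).1.pos
      positivity
  have h7 : (n : ℝ) * ∑ p ∈ primesUpTo n, Real.log p / p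
      ≤ ∑ p ∈ primesUpTo n, ((n / p : ℕ) : ℝ) * Real.log p + ∑ p ∈ primesUpTo n, Real.log p := by
    rw [Finset.mul_sum, ← Finset.sum_add_distrib]
    refine Finset.sum_le_sum fun p hp => ?_
    have hp0 : (0 : ℝ) < p := by exact_mod_cast (mem_primesUpTo.mp hp).1.pos
    have hp1 : (1 : ℝ) ≤ p := by exact_mod_cast (mem_primesUpTo.mp hp).1.one_le
    have hlog : 0 ≤ Real.log p := Real.log_nonneg hp1
    have h8 : (n : ℝ) / p ≤ ((n / p : ℕ) : ℝ) + 1 := by
      rw [div_le_iff₀ hp0]
      have h9 : n < p * (n / p + 1) := Nat.lt_mul_div_succ n (mem_primesUpTo.mp hp).1.pos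
      have h10 : (n : ℝ) < p * ((n / p : ℕ) + 1) := by exact_mod_cast h9
      linarith
    have h11 := mul_le_mul_of_nonneg_right h8 hlog
    calc (n : ℝ) * (Real.log p / p) = n / p * Real.log p := by ring
      _ ≤ (((n / p : ℕ) : ℝ) + 1) * Real.log p := h11
      _ = ((n / p : ℕ) : ℝ) * Real.log p + Real.log p := by ring
  have h12 : (n : ℝ) * ∑ p ∈ primesUpTo n, Real.log p / p ≤ n * (Real.log n + Real.log 4) := by
    linarith
  exact le_of_mul_le_mul_left h12 hn'

/-- `∑_{p ≤ n < p²} 1/p ≤ 6`. -/
theorem sum_inv_le (n : ℕ) :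
    ∑ p ∈ (primesUpTo n).filter (fun p => n < p ^ 2), (1 : ℝ) / p ≤ 6 := by
  by_cases hn : n < 2
  · have : (primesUpTo n).filter (fun p => n < p ^ 2) = ∅ := by
      apply Finset.filter_eq_empty_iff.mpr
      intro p hp
      have h := mem_primesUpTo.mp hp
      have := h.1.two_le
      omega
    rw [this]
    simp
  · push Not at hn
    have hn' : (2 : ℝ) ≤ n := by exact_mod_cast hn
    have hlog2 : Real.log 2 ≤ Real.log n := Real.log_le_log (by norm_num) hn'
    have hlog2' : 0 < Real.log 2 := Real.log_pos (by norm_num)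
    have hlogn : 0 < Real.log n := by linarith
    have h1 := sum_log_div_le n (by omega)
    have h4 : Real.log 4 = 2 * Real.log 2 := by
      have : (4 : ℝ) = 2 ^ 2 := by norm_num
      rw [this, Real.log_pow]
      norm_num
    have h2 : Real.log n / 2 * ∑ p ∈ (primesUpTo n).filter (fun p => n < p ^ 2), (1 : ℝ) / p
        ≤ ∑ p ∈ primesUpTo n, Real.log p / p := by
      rw [Finset.mul_sum]
      refine le_trans (Finset.sum_le_sum (g := fun p : ℕ => Real.log p / p) fun p hp => ?_) ?_
      · have hp' := Finset.mem_filter.mp hp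
        have hp0 : (0 : ℝ) < p := by exact_mod_cast (mem_primesUpTo.mp hp'.1).1.pos
        have h3 : Real.log n ≤ 2 * Real.log p := by
          have : Real.log n ≤ Real.log ((p : ℝ) ^ 2) := by
            apply Real.log_le_log (by linarith)
            have := hp'.2.le
            exact_mod_cast this
          rwa [Real.log_pow, Nat.cast_ofNat] at this
        rw [← mul_div_assoc, mul_one]
        apply div_le_div_of_nonneg_right _ hp0.le
        linarith
      · apply Finset.sum_le_sum_of_subset_of_nonneg (Finset.filter_subset _ _)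
        intro p hp _
        have hp1 : (1 : ℝ) ≤ p := by exact_mod_cast (mem_primesUpTo.mp hp).1.one_le
        have hlog : 0 ≤ Real.log p := Real.log_nonneg hp1
        positivity
    have h5 : Real.log n / 2 * ∑ p ∈ (primesUpTo n).filter (fun p => n < p ^ 2), (1 : ℝ) / p
        ≤ Real.log n / 2 * 6 := by
      refine h2.trans (h1.trans ?_)
      rw [h4]
      linarith
    exact le_of_mul_le_mul_left h5 (by linarith)

end Pool.Agent.Lib.Sieve
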