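import Mathlib

/-!
# Counting integers in an interval lying in prescribed residue classes
-/

namespace Pool.Agent.Lib.Sieve

open Finset

/-- `chi Ω p u = 1` if `u mod p` lies in `Ω p`, and `0` otherwise. -/
noncomputable def chi (Ω : (p : ℕ) → Finset (ZMod p)) (p : ℕ) (u : ℤ) : ℝ :=
  if (u : ZMod p) ∈ Ω p then 1 else 0

theorem chi_nonneg (Ω : (p : ℕ) → Finset (ZMod p)) (p : ℕ) (u : ℤ) : 0 ≤ chi Ω p u := by
  unfold chi
  split_ifs <;> norm_num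

theorem chi_le_one (Ω : (p : ℕ) → Finset (ZMod p)) (p : ℕ) (u : ℤ) : chi Ω p u ≤ 1 := by
  unfold chi
  split_ifs <;> norm_num

theorem count_prog (a : ℤ) (M : ℕ) (q : ℕ) (hq : 0 < q) (c : ℤ) :
    |∑ u ∈ Finset.Ico a (a + M), (if u ≡ c [ZMOD q] then (1 : ℝ) else 0) - M / q| ≤ 1 := by
  have hq' : (0 : ℤ) < (q : ℤ) := by exact_mod_cast hq
  have hqr : (0 : ℝ) < (q : ℝ) := by exact_mod_cast hq
  have h1 : ∑ u ∈ Finset.Ico a (a + M), (if u ≡ c [ZMOD q] then (1 : ℝ) else 0)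
      = (((Finset.Ico a (a + M)).filter fun u => u ≡ c [ZMOD q]).card : ℝ) := by
    rw [Finset.card_filter]
    push_cast
    rfl
  have h2 := Int.Ico_filter_modEq_card a (a + M) hq' c
  have h3 : ((((Finset.Ico a (a + M)).filter fun u => u ≡ c [ZMOD q]).card : ℤ) : ℝ)
      = ((max (⌈((a + M : ℤ) - c : ℚ) / ((q : ℤ) : ℚ)⌉ - ⌈((a : ℤ) - c : ℚ) / ((q : ℤ) : ℚ)⌉) 0 : ℤ) : ℝ) := by
    rw [h2]
  rw [h1]
  have h4 : (((Finset.Ico a (a + M)).filter fun u => u ≡ c [ZMOD q]).card : ℝ)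
      = ((max (⌈((a + M : ℤ) - c : ℚ) / ((q : ℤ) : ℚ)⌉ - ⌈((a : ℤ) - c : ℚ) / ((q : ℤ) : ℚ)⌉) 0 : ℤ) : ℝ) := by
    rw [← h3]
    push_cast
    rfl
  rw [h4]
  set A : ℚ := ((a + M : ℤ) - c : ℚ) / ((q : ℤ) : ℚ) with hA
  set B : ℚ := ((a : ℤ) - c : ℚ) / ((q : ℤ) : ℚ) with hB
  have hAB : A - B = (M : ℚ) / q := by
    rw [hA, hB]
    push_cast
    ring
  have hMnn : (0 : ℚ) ≤ (M : ℚ) / q := by positivity
  have hBA : B ≤ A := by linarith
  have hceil : ⌈B⌉ ≤ ⌈A⌉ := Int.ceil_le_ceil hBA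
  rw [max_eq_left (by linarith)]
  have a1 := Int.le_ceil A
  have a2 := Int.ceil_lt_add_one A
  have b1 := Int.le_ceil B
  have b2 := Int.ceil_lt_add_one B
  have hq1 : ((⌈A⌉ - ⌈B⌉ : ℤ) : ℚ) - (M : ℚ) / q ≤ 1 := by
    push_cast
    linarith
  have hq2 : -1 ≤ ((⌈A⌉ - ⌈B⌉ : ℤ) : ℚ) - (M : ℚ) / q := by
    push_cast
    linarith
  rw [abs_le]
  constructor
  · have h := (Rat.cast_le (K := ℝ)).mpr hq2
    push_cast at h ⊢
    linarith
  · have h := (Rat.cast_le (K := ℝ)).mpr hq1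
    push_cast at h ⊢
    linarith

theorem exists_lift (q p : ℕ) (hpp : p.Prime) (hpq : ¬ p ∣ q) (c : ℤ) :
    ∃ c' : ZMod p → ℤ, ∀ (r : ZMod p) (u : ℤ),
      (u ≡ c' r [ZMOD ((q * p : ℕ) : ℤ)]) ↔ (u ≡ c [ZMOD q] ∧ (u : ZMod p) = r) := by
  have : Fact p.Prime := ⟨hpp⟩
  have hq0 : ((q : ZMod p)) ≠ 0 := by
    intro h
    exact hpq ((ZMod.natCast_eq_zero_iff q p).mp h)
  let c' : ZMod p → ℤ := fun r => c + q * ((((r - (c : ZMod p)) * (q : ZMod p)⁻¹).val : ℕ) : ℤ)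
  have hc'q : ∀ r, c' r ≡ c [ZMOD q] := by
    intro r
    simp only [c']
    have : c + q * ((((r - (c : ZMod p)) * (q : ZMod p)⁻¹).val : ℕ) : ℤ) ≡ c + 0 [ZMOD q] := by
      apply Int.ModEq.add_left
      exact (Int.modEq_zero_iff_dvd.mpr (Dvd.intro _ rfl))
    rwa [add_zero] at this
  have hc'p : ∀ r : ZMod p, ((c' r : ℤ) : ZMod p) = r := by
    intro r
    simp only [c']
    push_cast
    rw [ZMod.natCast_zmod_val]
    field_simp
    ring
  refine ⟨c', fun r u => ?_⟩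
  have hcop : ((q : ℤ).natAbs).Coprime ((p : ℤ).natAbs) := by
    simp only [Int.natAbs_natCast]
    exact ((Nat.Prime.coprime_iff_not_dvd hpp).mpr hpq).symm
  rw [Nat.cast_mul, ← Int.modEq_and_modEq_iff_modEq_mul hcop]
  constructor
  · rintro ⟨h1, h2⟩
    refine ⟨h1.trans (hc'q r), ?_⟩
    have := (ZMod.intCast_eq_intCast_iff u (c' r) p).mpr h2
    rw [this, hc'p r]
  · rintro ⟨h1, h2⟩
    refine ⟨h1.trans (hc'q r).symm, ?_⟩
    apply (ZMod.intCast_eq_intCast_iff u (c' r) p).mp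
    rw [h2, hc'p r]

/-- Counting lemma: integers of an interval in prescribed residue classes. -/
theorem count_classes (Ω : (p : ℕ) → Finset (ZMod p)) (a : ℤ) (M : ℕ) (E : Finset ℕ)
    (hE : ∀ p ∈ E, p.Prime) :
    ∀ q : ℕ, 0 < q → (∀ p ∈ E, ¬ p ∣ q) → ∀ c : ℤ,
      |∑ u ∈ Finset.Ico a (a + M), (if u ≡ c [ZMOD q] then (1 : ℝ) else 0) * ∏ p ∈ E, chi Ω p u
        - (M : ℝ) / q * ∏ p ∈ E, (((Ω p).card : ℝ) / p)| ≤ ∏ p ∈ E, ((Ω p).card : ℝ) := by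
  induction E using Finset.induction_on with
  | empty =>
    intro q hq _ c
    simpa using count_prog a M q hq c
  | insert p E hp ih =>
    intro q hq hdvd c
    have hpp : p.Prime := hE p (Finset.mem_insert_self p E)
    have hpq : ¬ p ∣ q := hdvd p (Finset.mem_insert_self p E)
    have ih' := ih (fun r hr => hE r (Finset.mem_insert_of_mem hr))
    obtain ⟨c', hiff⟩ := exists_lift q p hpp hpq c
    have hchi : ∀ u : ℤ, (if u ≡ c [ZMOD q] then (1 : ℝ) else 0) * chi Ω p u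
        = ∑ r ∈ Ω p, (if u ≡ c' r [ZMOD ((q * p : ℕ) : ℤ)] then (1 : ℝ) else 0) := by
      intro u
      have h1 : ∀ r : ZMod p, (if u ≡ c' r [ZMOD ((q * p : ℕ) : ℤ)] then (1 : ℝ) else 0)
          = (if u ≡ c [ZMOD q] then (1 : ℝ) else 0) * (if (u : ZMod p) = r then (1 : ℝ) else 0) := by
        intro r
        simp only [hiff r u]
        by_cases h1 : u ≡ c [ZMOD q] <;> by_cases h2 : (u : ZMod p) = r <;> simp [h1, h2]
      simp_rw [h1]
      rw [← Finset.mul_sum]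
      congr 1
      unfold chi
      rw [Finset.sum_ite_eq]
    have e1 : ∑ u ∈ Finset.Ico a (a + M), (if u ≡ c [ZMOD q] then (1 : ℝ) else 0) *
          ∏ r ∈ insert p E, chi Ω r u
        = ∑ r ∈ Ω p, ∑ u ∈ Finset.Ico a (a + M),
            (if u ≡ c' r [ZMOD ((q * p : ℕ) : ℤ)] then (1 : ℝ) else 0) * ∏ r ∈ E, chi Ω r u := by
      rw [Finset.sum_comm]
      refine Finset.sum_congr rfl fun u _ => ?_
      rw [Finset.prod_insert hp, ← mul_assoc, hchi u, Finset.sum_mul]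
    have e2 : (M : ℝ) / q * ∏ r ∈ insert p E, (((Ω r).card : ℝ) / r)
        = ∑ _r ∈ Ω p, (M : ℝ) / ((q * p : ℕ) : ℝ) * ∏ r ∈ E, (((Ω r).card : ℝ) / r) := by
      rw [Finset.sum_const, nsmul_eq_mul, Finset.prod_insert hp, Nat.cast_mul]
      generalize ∏ r ∈ E, (((Ω r).card : ℝ) / r) = X
      have h : ∀ A B C D : ℝ, A / B * (C / D * X) = C * (A / (B * D) * X) := by
        intro A B C D
        rw [div_mul_eq_div_div]
        ring
      exact h _ _ _ _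
    have e3 : ∏ r ∈ insert p E, ((Ω r).card : ℝ) = ∑ _r ∈ Ω p, ∏ r ∈ E, ((Ω r).card : ℝ) := by
      rw [Finset.sum_const, nsmul_eq_mul, Finset.prod_insert hp]
    rw [e1, e2, e3, ← Finset.sum_sub_distrib]
    refine (Finset.abs_sum_le_sum_abs _ _).trans (Finset.sum_le_sum fun r _ => ?_)
    apply ih' (q * p) (Nat.mul_pos hq hpp.pos)
    intro s hs hdiv
    rcases (Nat.Prime.dvd_mul (hE s (Finset.mem_insert_of_mem hs))).mp hdiv with h | h
    · exact hdvd s (Finset.mem_insert_of_mem hs) h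
    · have := (Nat.prime_dvd_prime_iff_eq (hE s (Finset.mem_insert_of_mem hs)) hpp).mp h
      exact hp (this ▸ hs)

/-- Counting lemma without a progression. -/
theorem count_classes' (Ω : (p : ℕ) → Finset (ZMod p)) (a : ℤ) (M : ℕ) (E : Finset ℕ)
    (hE : ∀ p ∈ E, p.Prime) :
    |∑ u ∈ Finset.Ico a (a + M), ∏ p ∈ E, chi Ω p u
        - (M : ℝ) * ∏ p ∈ E, (((Ω p).card : ℝ) / p)| ≤ ∏ p ∈ E, ((Ω p).card : ℝ) := by
  have h := count_classes Ω a M E hE 1 one_pos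
    (fun p hp hd => (hE p hp).one_lt.ne' (Nat.dvd_one.mp hd)) 0
  have h1 : ∀ u : ℤ, u ≡ 0 [ZMOD ((1 : ℕ) : ℤ)] := fun u => by
    rw [Nat.cast_one]
    exact Int.modEq_one
  have h2 : ∀ u : ℤ, (if u ≡ 0 [ZMOD ((1 : ℕ) : ℤ)] then (1 : ℝ) else 0) = 1 := fun u =>
    if_pos (h1 u)
  simp_rw [h2] at h
  simpa using h

end Pool.Agent.Lib.Sieve
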