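import Pool.Agent.Lib.Sieve.BrunHooley
import Pool.Agent.Lib.Sieve.CRT
import Pool.Agent.Lib.Sieve.PrimeSum

/-!
# A fundamental lemma of sieve theory (Brun-Hooley)

For a fixed dimension `k`, the number of integers `u` in an interval of length `M ≥ z ^ K(k)`
avoiding at most `k` residue classes modulo each prime `2k + 2 < p ≤ z` lies between
`M V / 4` and `3 M V`, where `V` is the expected density.
-/

namespace Pool.Agent.Lib.Sieve

open Finset

/-- The sifting primes `w < p ≤ z`. -/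
def sprimes (w z : ℕ) : Finset ℕ := (primesUpTo z).filter (fun p => w < p)

theorem mem_sprimes {w z p : ℕ} : p ∈ sprimes w z ↔ p.Prime ∧ w < p ∧ p ≤ z := by
  unfold sprimes
  rw [Finset.mem_filter, mem_primesUpTo]
  tauto

/-- The index of the block of the prime `p`. -/
def blk (z p : ℕ) : ℕ := Nat.log 2 (Nat.log p z)

/-- The `j`-th block of sifting primes. -/
def blockSet (w z j : ℕ) : Finset ℕ := (sprimes w z).filter (fun p => blk z p = j)

theorem mem_blockSet {w z j p : ℕ} :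
    p ∈ blockSet w z j ↔ (p.Prime ∧ w < p ∧ p ≤ z) ∧ blk z p = j := by
  unfold blockSet
  rw [Finset.mem_filter, mem_sprimes]

theorem blk_le (z p : ℕ) : blk z p ≤ z :=
  (Nat.log_le_self _ _).trans (Nat.log_le_self _ _)

theorem prod_blocks (w z : ℕ) (f : ℕ → ℝ) :
    ∏ j ∈ Finset.range (z + 1), ∏ p ∈ blockSet w z j, f p = ∏ p ∈ sprimes w z, f p := by
  unfold blockSet
  apply Finset.prod_fiberwise_of_maps_to
  intro p _
  exact Finset.mem_range.mpr (Nat.lt_succ_of_le (blk_le z p))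

theorem blk_spec {z p : ℕ} (hp : p.Prime) (hpz : p ≤ z) :
    p ^ (2 ^ blk z p) ≤ z ∧ z < p ^ (2 ^ (blk z p + 1)) := by
  have hz : z ≠ 0 := by
    have := hp.pos
    omega
  have he : Nat.log p z ≠ 0 := (Nat.log_pos hp.one_lt hpz).ne'
  constructor
  · calc p ^ (2 ^ blk z p) ≤ p ^ Nat.log p z :=
          Nat.pow_le_pow_right hp.pos (Nat.pow_log_le_self 2 he)
      _ ≤ z := Nat.pow_log_le_self p hz
  · calc z < p ^ (Nat.log p z + 1) := Nat.lt_pow_succ_log_self hp.one_lt z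
      _ ≤ p ^ (2 ^ (blk z p + 1)) :=
          Nat.pow_le_pow_right hp.pos (Nat.lt_pow_succ_log_self one_lt_two (Nat.log p z))

theorem block_sq {w z j p y : ℕ} (hp : p ∈ blockSet w z j) (hy : y ∈ blockSet w z j) :
    y < p ^ 2 := by
  rw [mem_blockSet] at hp hy
  have h1 := (blk_spec hy.1.1 hy.1.2.2).1
  have h2 := (blk_spec hp.1.1 hp.1.2.2).2
  rw [hy.2] at h1
  rw [hp.2] at h2
  have h3 : y ^ (2 ^ j) < (p ^ 2) ^ (2 ^ j) := by
    calc y ^ (2 ^ j) ≤ z := h1
      _ < p ^ (2 ^ (j + 1)) := h2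
      _ = (p ^ 2) ^ (2 ^ j) := by rw [← pow_mul, pow_succ, mul_comm]
  exact lt_of_pow_lt_pow_left₀ _ (Nat.zero_le _) h3

/-- The largest prime in a block. -/
def top (w z j : ℕ) : ℕ := (blockSet w z j).sup id

theorem top_mem {w z j : ℕ} (h : (blockSet w z j).Nonempty) : top w z j ∈ blockSet w z j := by
  obtain ⟨y, hy, hy'⟩ := Finset.exists_mem_eq_sup _ h id
  unfold top
  rw [hy']
  exact hy

theorem le_top {w z j p : ℕ} (h : p ∈ blockSet w z j) : p ≤ top w z j :=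
  Finset.le_sup (f := id) h

theorem block_sum_inv (w z j : ℕ) : ∑ p ∈ blockSet w z j, (1 : ℝ) / p ≤ 6 := by
  by_cases h : (blockSet w z j).Nonempty
  · refine le_trans ?_ (sum_inv_le (top w z j))
    apply Finset.sum_le_sum_of_subset_of_nonneg
    · intro p hp
      rw [Finset.mem_filter, mem_primesUpTo]
      exact ⟨⟨(mem_blockSet.mp hp).1.1, le_top hp⟩, block_sq hp (top_mem h)⟩
    · intro p _ _
      positivity
  · rw [Finset.not_nonempty_iff_eq_empty] at h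
    rw [h]
    simp

theorem exp_neg_two_mul_le {x : ℝ} (h0 : 0 ≤ x) (h1 : x ≤ 1 / 2) : Real.exp (-(2 * x)) ≤ 1 - x := by
  rw [Real.exp_neg]
  have h2 : 1 + 2 * x ≤ Real.exp (2 * x) := by
    have := Real.add_one_le_exp (2 * x)
    linarith
  have h3 : 0 < Real.exp (2 * x) := Real.exp_pos _
  rw [inv_le_iff_one_le_mul₀ h3]
  nlinarith

theorem prod_one_sub_ge {Q : Finset ℕ} {g : ℕ → ℝ} (h0 : ∀ p ∈ Q, 0 ≤ g p)
    (h1 : ∀ p ∈ Q, g p ≤ 1 / 2) :
    Real.exp (-(2 * ∑ p ∈ Q, g p)) ≤ ∏ p ∈ Q, (1 - g p) := by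
  rw [Finset.mul_sum, ← Finset.sum_neg_distrib, Real.exp_sum]
  exact Finset.prod_le_prod (fun p _ => (Real.exp_pos _).le)
    fun p hp => exp_neg_two_mul_le (h0 p hp) (h1 p hp)

theorem prod_one_add_le {Q : Finset ℕ} {g : ℕ → ℝ} (h0 : ∀ p ∈ Q, 0 ≤ g p) :
    ∏ p ∈ Q, (1 + g p) ≤ Real.exp (∑ p ∈ Q, g p) := by
  rw [Real.exp_sum]
  refine Finset.prod_le_prod (fun p hp => by linarith [h0 p hp]) fun p _ => ?_
  have := Real.add_one_le_exp (g p)
  linarith

theorem exp_nat_le (n : ℕ) : Real.exp n ≤ 2 ^ (2 * n) := by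
  have h1 : Real.exp (n : ℝ) = Real.exp 1 ^ n := by
    rw [← Real.exp_nat_mul]
    simp
  rw [h1, pow_mul]
  apply pow_le_pow_left₀ (Real.exp_pos _).le
  have := Real.exp_one_lt_d9
  linarith

section

variable (k z : ℕ) (Ω : (p : ℕ) → Finset (ZMod p))

/-- The density of removed classes. -/
noncomputable def dens (Ω : (p : ℕ) → Finset (ZMod p)) (p : ℕ) : ℝ := ((Ω p).card : ℝ) / p

theorem dens_nonneg (p : ℕ) : 0 ≤ dens Ω p := by
  unfold dens
  positivity

variable {k z Ω}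

theorem dens_le {p : ℕ} (h : (Ω p).card ≤ k) : dens Ω p ≤ k * (1 / p) := by
  unfold dens
  rw [mul_one_div]
  apply div_le_div_of_nonneg_right _ (Nat.cast_nonneg _)
  exact_mod_cast h

theorem dens_le_half {p : ℕ} (h : (Ω p).card ≤ k) (hp : 2 * k + 2 < p) : dens Ω p ≤ 1 / 2 := by
  unfold dens
  have hp0 : (0 : ℝ) < p := by
    have : 0 < p := by omega
    exact_mod_cast this
  rw [div_le_iff₀ hp0]
  have h1 : ((Ω p).card : ℝ) ≤ k := by exact_mod_cast h
  have h2 : (2 * k + 2 : ℝ) < p := by exact_mod_cast hp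
  linarith

/-- The exponents `b_j = 48 k + 2 + 2 j`. -/
def bj (k j : ℕ) : ℕ := 48 * k + 2 + 2 * j

theorem bj_even (k j : ℕ) : Even (bj k j) := ⟨24 * k + 1 + j, by unfold bj; ring⟩

/-- The relative error of block `j`. -/
noncomputable def epsj (k j : ℕ) : ℝ := Real.exp (24 * k) / 2 ^ (bj k j + 1)

theorem epsj_nonneg (k j : ℕ) : 0 ≤ epsj k j := by
  unfold epsj
  positivity

theorem sum_epsj (k n : ℕ) : ∑ j ∈ Finset.range n, epsj k j ≤ 1 / 2 := by
  have h1 : ∀ j, epsj k j ≤ 1 / 8 * (1 / 2) ^ j := by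
    intro j
    unfold epsj bj
    have h2 : Real.exp (24 * k) ≤ 2 ^ (48 * k) := by
      have := exp_nat_le (24 * k)
      push_cast at this
      calc Real.exp (24 * k) ≤ 2 ^ (2 * (24 * k)) := this
        _ = 2 ^ (48 * k) := by congr 1; ring
    rw [div_le_iff₀ (by positivity)]
    have h3 : (1 : ℝ) / 8 * (1 / 2) ^ j * 2 ^ (48 * k + 2 + 2 * j + 1) = 2 ^ (48 * k) * 2 ^ j := by
      rw [one_div_pow]
      have : (2 : ℝ) ^ (48 * k + 2 + 2 * j + 1) = 2 ^ (48 * k) * 8 * (2 ^ j * 2 ^ j) := by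
        rw [show 48 * k + 2 + 2 * j + 1 = 48 * k + 3 + (j + j) by ring, pow_add, pow_add, pow_add]
        norm_num
      rw [this]
      have hj : (2 : ℝ) ^ j ≠ 0 := by positivity
      field_simp
    rw [h3]
    have h4 : (1 : ℝ) ≤ 2 ^ j := one_le_pow₀ (by norm_num)
    have h5 : (0 : ℝ) < 2 ^ (48 * k) := by positivity
    nlinarith
  calc ∑ j ∈ Finset.range n, epsj k j ≤ ∑ j ∈ Finset.range n, 1 / 8 * (1 / 2 : ℝ) ^ j :=
        Finset.sum_le_sum fun j _ => h1 j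
    _ = 1 / 8 * ∑ j ∈ Finset.range n, (1 / 2 : ℝ) ^ j := by rw [Finset.mul_sum]
    _ ≤ 1 / 8 * 2 := by
        apply mul_le_mul_of_nonneg_left (sum_geometric_two_le n) (by norm_num)
    _ ≤ 1 / 2 := by norm_num

theorem sum_aux (B : ℝ) (hB : 0 ≤ B) (n : ℕ) :
    ∑ j ∈ Finset.range n, (B + 2 * j) / 2 ^ j ≤ 2 * B + 4 := by
  have h : ∀ n : ℕ, ∑ j ∈ Finset.range n, (B + 2 * j) / 2 ^ j
      = 2 * B + 4 - (2 * B + 4 * n + 4) / 2 ^ n := by
    intro n
    induction n with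
    | zero => simp
    | succ n ih =>
      rw [Finset.sum_range_succ, ih, pow_succ]
      push_cast
      have : (2 : ℝ) ^ n ≠ 0 := by positivity
      field_simp
      ring
  rw [h n]
  have : 0 ≤ (2 * B + 4 * n + 4) / 2 ^ n := by positivity
  linarith

theorem block_E (hΩ : ∀ p, p.Prime → 2 * k + 2 < p → p ≤ z → (Ω p).card ≤ k) (j : ℕ) :
    poly (cE (bj k j + 1)) (dens Ω) (blockSet (2 * k + 2) z j)
      ≤ epsj k j * ∏ p ∈ blockSet (2 * k + 2) z j, (1 - dens Ω p) := by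
  set Q := blockSet (2 * k + 2) z j with hQ
  have hcard : ∀ p ∈ Q, (Ω p).card ≤ k := fun p hp => by
    have h := mem_blockSet.mp hp
    exact hΩ p h.1.1 h.1.2.1 h.1.2.2
  have hg0 : ∀ p ∈ Q, 0 ≤ dens Ω p := fun p _ => dens_nonneg Ω p
  have hg1 : ∀ p ∈ Q, dens Ω p ≤ 1 / 2 := fun p hp =>
    dens_le_half (hcard p hp) (mem_blockSet.mp hp).1.2.1
  have hsum : ∑ p ∈ Q, dens Ω p ≤ 6 * k := by
    calc ∑ p ∈ Q, dens Ω p ≤ ∑ p ∈ Q, (k : ℝ) * (1 / p) :=
          Finset.sum_le_sum fun p hp => dens_le (hcard p hp)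
      _ = k * ∑ p ∈ Q, (1 : ℝ) / p := by rw [Finset.mul_sum]
      _ ≤ k * 6 := mul_le_mul_of_nonneg_left (block_sum_inv _ _ _) (Nat.cast_nonneg _)
      _ = 6 * k := by ring
  have h1 := rankinE hg0 (bj k j + 1) (l := 2) (by norm_num)
  have h2 : ∏ p ∈ Q, (1 + 2 * dens Ω p) ≤ Real.exp (∑ p ∈ Q, 2 * dens Ω p) :=
    prod_one_add_le fun p hp => by
      have := hg0 p hp
      linarith
  rw [← Finset.mul_sum] at h2
  have h3 : Real.exp (2 * ∑ p ∈ Q, dens Ω p) ≤ Real.exp (12 * k) :=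
    Real.exp_le_exp.mpr (by linarith)
  have h4 : Real.exp (-(12 * k)) ≤ ∏ p ∈ Q, (1 - dens Ω p) :=
    (Real.exp_le_exp.mpr (by linarith)).trans (prod_one_sub_ge hg0 hg1)
  have h5 : (0 : ℝ) < 2 ^ (bj k j + 1) := by positivity
  have h6 : poly (cE (bj k j + 1)) (dens Ω) Q ≤ Real.exp (12 * k) / 2 ^ (bj k j + 1) := by
    rw [le_div_iff₀ h5]
    linarith
  refine h6.trans ?_
  unfold epsj
  have h7 : Real.exp (12 * k) = Real.exp (24 * k) * Real.exp (-(12 * k)) := by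
    rw [← Real.exp_add]
    congr 1
    ring
  rw [h7]
  have h8 : 0 ≤ Real.exp (24 * k) / 2 ^ (bj k j + 1) := by positivity
  calc Real.exp (24 * k) * Real.exp (-(12 * k)) / 2 ^ (bj k j + 1)
      = Real.exp (24 * k) / 2 ^ (bj k j + 1) * Real.exp (-(12 * k)) := by ring
    _ ≤ Real.exp (24 * k) / 2 ^ (bj k j + 1) * ∏ p ∈ Q, (1 - dens Ω p) :=
        mul_le_mul_of_nonneg_left h4 h8

theorem block_R (hz : 2 ≤ z) (hΩ : ∀ p, p.Prime → 2 * k + 2 < p → p ≤ z → (Ω p).card ≤ k)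
    (j : ℕ) :
    poly (cA (bj k j + 1)) (fun p => ((Ω p).card : ℝ)) (blockSet (2 * k + 2) z j)
      ≤ Real.exp (2 * ((48 * k + 4 + 2 * j) / 2 ^ j) * Real.log z) := by
  have hz' : (2 : ℝ) ≤ z := by exact_mod_cast hz
  have hlogz : 0 ≤ Real.log z := Real.log_nonneg (by linarith)
  by_cases h : (blockSet (2 * k + 2) z j).Nonempty
  · set Q := blockSet (2 * k + 2) z j with hQ
    set y := top (2 * k + 2) z j with hy
    have hyQ : y ∈ Q := top_mem h
    have hyw := (mem_blockSet.mp hyQ)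
    have hcard : ∀ p ∈ Q, (Ω p).card ≤ k := fun p hp => by
      have h := mem_blockSet.mp hp
      exact hΩ p h.1.1 h.1.2.1 h.1.2.2
    have hy3 : 3 ≤ y := by omega
    have hyr : (3 : ℝ) ≤ y := by exact_mod_cast hy3
    have hky : (k : ℝ) ≤ y := by
      have : k ≤ y := by omega
      exact_mod_cast this
    set X : ℝ := (y : ℝ) ^ 2 with hX
    have hX9 : 9 ≤ X := by
      rw [hX]
      nlinarith
    have hX1 : 1 ≤ X := by linarith
    have h1 := rankinA (f := fun p => ((Ω p).card : ℝ)) (Q := Q)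
      (fun p _ => Nat.cast_nonneg _) (bj k j + 1) hX1
    have h2 : ∏ p ∈ Q, (1 + ((Ω p).card : ℝ) / X) ≤ Real.exp (∑ p ∈ Q, ((Ω p).card : ℝ) / X) :=
      prod_one_add_le fun p hp => by positivity
    have hQcard : (Q.card : ℝ) ≤ y := by
      have : Q ⊆ Finset.Icc 1 y := by
        intro p hp
        rw [Finset.mem_Icc]
        exact ⟨(mem_blockSet.mp hp).1.1.one_le, le_top hp⟩
      have := Finset.card_le_card this
      rw [Nat.card_Icc] at this
      have h' : Q.card ≤ y := by omega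
      exact_mod_cast h'
    have h3 : ∑ p ∈ Q, ((Ω p).card : ℝ) / X ≤ 1 := by
      rw [← Finset.sum_div, div_le_one (by linarith)]
      calc ∑ p ∈ Q, ((Ω p).card : ℝ) ≤ ∑ _p ∈ Q, (k : ℝ) :=
            Finset.sum_le_sum fun p hp => by exact_mod_cast hcard p hp
        _ = Q.card * k := by rw [Finset.sum_const, nsmul_eq_mul]
        _ ≤ y * y := mul_le_mul hQcard hky (Nat.cast_nonneg _) (Nat.cast_nonneg _)
        _ = X := by rw [hX]; ring
    have h4 : ∏ p ∈ Q, (1 + ((Ω p).card : ℝ) / X) ≤ X := by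
      refine h2.trans ((Real.exp_le_exp.mpr h3).trans ?_)
      have := Real.exp_one_lt_d9
      linarith
    have h5 : poly (cA (bj k j + 1)) (fun p => ((Ω p).card : ℝ)) Q ≤ X ^ (bj k j + 2) := by
      refine h1.trans ?_
      calc X ^ (bj k j + 1) * ∏ p ∈ Q, (1 + ((Ω p).card : ℝ) / X)
          ≤ X ^ (bj k j + 1) * X := mul_le_mul_of_nonneg_left h4 (by positivity)
        _ = X ^ (bj k j + 2) := by rw [← pow_succ]
    refine h5.trans ?_
    -- compare with a power of `z`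
    have hylog : (2 : ℝ) ^ j * Real.log y ≤ Real.log z := by
      have h6 := (blk_spec hyw.1.1 hyw.1.2.2).1
      rw [hyw.2] at h6
      have h7 : Real.log ((y : ℝ) ^ (2 ^ j)) ≤ Real.log z := by
        apply Real.log_le_log (by positivity)
        exact_mod_cast h6
      rw [Real.log_pow] at h7
      push_cast at h7
      exact h7
    have hylog' : Real.log y ≤ Real.log z / 2 ^ j := by
      rw [le_div_iff₀ (by positivity)]
      linarith
    have h8 : X ^ (bj k j + 2) = Real.exp ((2 * (bj k j + 2) : ℕ) * Real.log y) := by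
      rw [Real.exp_nat_mul, Real.exp_log (by linarith), hX, ← pow_mul]
    rw [h8]
    apply Real.exp_le_exp.mpr
    have h9 : ((2 * (bj k j + 2) : ℕ) : ℝ) = 2 * (48 * k + 4 + 2 * j) := by
      unfold bj
      push_cast
      ring
    rw [h9]
    calc (2 * (48 * k + 4 + 2 * j) : ℝ) * Real.log y
        ≤ (2 * (48 * k + 4 + 2 * j)) * (Real.log z / 2 ^ j) :=
          mul_le_mul_of_nonneg_left hylog' (by positivity)
      _ = 2 * ((48 * k + 4 + 2 * j) / 2 ^ j) * Real.log z := by ring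
  · rw [Finset.not_nonempty_iff_eq_empty] at h
    rw [h, poly_empty]
    have : cA (bj k j + 1) (∅ : Finset ℕ) = 1 := by simp [cA]
    rw [this]
    apply Real.one_le_exp
    positivity

theorem prod_R (hz : 2 ≤ z) (hΩ : ∀ p, p.Prime → 2 * k + 2 < p → p ≤ z → (Ω p).card ≤ k)
    (n : ℕ) :
    ∏ j ∈ Finset.range n,
        poly (cA (bj k j + 1)) (fun p => ((Ω p).card : ℝ)) (blockSet (2 * k + 2) z j)
      ≤ (z : ℝ) ^ (192 * k + 24) := by
  have hz' : (2 : ℝ) ≤ z := by exact_mod_cast hz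
  have hlogz : 0 ≤ Real.log z := Real.log_nonneg (by linarith)
  calc ∏ j ∈ Finset.range n,
        poly (cA (bj k j + 1)) (fun p => ((Ω p).card : ℝ)) (blockSet (2 * k + 2) z j)
      ≤ ∏ j ∈ Finset.range n, Real.exp (2 * ((48 * k + 4 + 2 * j) / 2 ^ j) * Real.log z) := by
        refine Finset.prod_le_prod (fun j _ => ?_) fun j _ => block_R hz hΩ j
        apply poly_nonneg
        · intro D
          unfold cA
          split_ifs <;> norm_num
        · intro p _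
          positivity
    _ = Real.exp (2 * (∑ j ∈ Finset.range n, ((48 * k + 4 : ℝ) + 2 * j) / 2 ^ j) * Real.log z) := by
        rw [← Real.exp_sum]
        congr 1
        rw [Finset.mul_sum, Finset.sum_mul]
    _ ≤ Real.exp (2 * (2 * (48 * k + 4) + 4) * Real.log z) := by
        apply Real.exp_le_exp.mpr
        apply mul_le_mul_of_nonneg_right _ hlogz
        apply mul_le_mul_of_nonneg_left _ (by norm_num)
        exact sum_aux _ (by positivity) n
    _ = (z : ℝ) ^ (192 * k + 24) := by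
        have : (2 * (2 * (48 * k + 4) + 4) : ℝ) = ((192 * k + 24 : ℕ) : ℝ) := by
          push_cast
          ring
        rw [this, Real.exp_nat_mul, Real.exp_log (by linarith)]

theorem V_lower (hz : 2 ≤ z) (hΩ : ∀ p, p.Prime → 2 * k + 2 < p → p ≤ z → (Ω p).card ≤ k) :
    4 * (z : ℝ) ^ (192 * k + 24)
      ≤ (z : ℝ) ^ (198 * k + 26) * ∏ p ∈ sprimes (2 * k + 2) z, (1 - dens Ω p) := by
  have hz' : (2 : ℝ) ≤ z := by exact_mod_cast hz
  have hz0 : (0 : ℝ) < z := by linarith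
  set Q := sprimes (2 * k + 2) z with hQ
  have hcard : ∀ p ∈ Q, (Ω p).card ≤ k := fun p hp => by
    have h := mem_sprimes.mp hp
    exact hΩ p h.1 h.2.1 h.2.2
  have hg0 : ∀ p ∈ Q, 0 ≤ dens Ω p := fun p _ => dens_nonneg Ω p
  have hg1 : ∀ p ∈ Q, dens Ω p ≤ 1 / 2 := fun p hp =>
    dens_le_half (hcard p hp) (mem_sprimes.mp hp).2.1
  have hharm : ∑ p ∈ Q, (1 : ℝ) / p ≤ 1 + Real.log z := by
    have h1 : ∑ p ∈ Q, (1 : ℝ) / p ≤ ∑ i ∈ Finset.Icc 1 z, (1 : ℝ) / i := by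
      apply Finset.sum_le_sum_of_subset_of_nonneg
      · intro p hp
        rw [Finset.mem_Icc]
        have h := mem_sprimes.mp hp
        exact ⟨h.1.one_le, h.2.2⟩
      · intro p _ _
        positivity
    have h2 : ∑ i ∈ Finset.Icc 1 z, (1 : ℝ) / i = (harmonic z : ℝ) := by
      rw [harmonic_eq_sum_Icc]
      push_cast
      refine Finset.sum_congr rfl fun i _ => ?_
      rw [one_div]
    have h3 := harmonic_le_one_add_log z
    linarith
  have hsum : ∑ p ∈ Q, dens Ω p ≤ k * (1 + Real.log z) := by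
    calc ∑ p ∈ Q, dens Ω p ≤ ∑ p ∈ Q, (k : ℝ) * (1 / p) :=
          Finset.sum_le_sum fun p hp => dens_le (hcard p hp)
      _ = k * ∑ p ∈ Q, (1 : ℝ) / p := by rw [Finset.mul_sum]
      _ ≤ k * (1 + Real.log z) := mul_le_mul_of_nonneg_left hharm (Nat.cast_nonneg _)
  have h1 : Real.exp (-(2 * (k * (1 + Real.log z)))) ≤ ∏ p ∈ Q, (1 - dens Ω p) :=
    (Real.exp_le_exp.mpr (by linarith)).trans (prod_one_sub_ge hg0 hg1)
  have h2 : Real.exp (2 * (k * (1 + Real.log z))) ≤ (z : ℝ) ^ (6 * k) := by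
    have h3 : 2 * (k * (1 + Real.log z)) = ((2 * k : ℕ) : ℝ) + ((2 * k : ℕ) : ℝ) * Real.log z := by
      push_cast
      ring
    rw [h3, Real.exp_add, Real.exp_nat_mul, Real.exp_log hz0]
    have h4 := exp_nat_le (2 * k)
    have h5 : (2 : ℝ) ^ (2 * (2 * k)) ≤ (z : ℝ) ^ (2 * (2 * k)) := pow_le_pow_left₀ (by norm_num) hz' _
    calc Real.exp ((2 * k : ℕ) : ℝ) * (z : ℝ) ^ (2 * k)
        ≤ (z : ℝ) ^ (2 * (2 * k)) * (z : ℝ) ^ (2 * k) :=
          mul_le_mul_of_nonneg_right (h4.trans h5) (by positivity)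
      _ = (z : ℝ) ^ (6 * k) := by
          rw [← pow_add]
          congr 1
          ring
  have h6 : 1 ≤ (z : ℝ) ^ (6 * k) * Real.exp (-(2 * (k * (1 + Real.log z)))) := by
    rw [Real.exp_neg, ← div_eq_mul_inv, one_le_div (Real.exp_pos _)]
    exact h2
  have h7 : 1 ≤ (z : ℝ) ^ (6 * k) * ∏ p ∈ Q, (1 - dens Ω p) :=
    h6.trans (mul_le_mul_of_nonneg_left h1 (by positivity))
  have h8 : (4 : ℝ) ≤ (z : ℝ) ^ 2 := by nlinarith
  have h9 : (z : ℝ) ^ (198 * k + 26) = (z : ℝ) ^ (192 * k + 24) * ((z : ℝ) ^ 2 * (z : ℝ) ^ (6 * k)) := by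
    rw [← pow_add, ← pow_add]
    congr 1
    ring
  rw [h9]
  have h10 : 0 < (z : ℝ) ^ (192 * k + 24) := by positivity
  have h11 : 4 * 1 ≤ (z : ℝ) ^ 2 * ((z : ℝ) ^ (6 * k) * ∏ p ∈ Q, (1 - dens Ω p)) :=
    mul_le_mul h8 h7 (by norm_num) (by positivity)
  calc 4 * (z : ℝ) ^ (192 * k + 24) = (z : ℝ) ^ (192 * k + 24) * (4 * 1) := by ring
    _ ≤ (z : ℝ) ^ (192 * k + 24) *
        ((z : ℝ) ^ 2 * ((z : ℝ) ^ (6 * k) * ∏ p ∈ Q, (1 - dens Ω p))) :=
        mul_le_mul_of_nonneg_left h11 h10.le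
    _ = _ := by ring

/-- **Fundamental lemma** (Brun-Hooley), in terms of weighted sums. -/
theorem fundamental_sum (hz : 2 ≤ z)
    (hΩ : ∀ p, p.Prime → 2 * k + 2 < p → p ≤ z → (Ω p).card ≤ k)
    (a : ℤ) (M : ℕ) (hM : z ^ (198 * k + 26) ≤ M) :
    (M : ℝ) / 4 * ∏ p ∈ sprimes (2 * k + 2) z, (1 - dens Ω p)
      ≤ ∑ u ∈ Finset.Ico a (a + M), ∏ p ∈ sprimes (2 * k + 2) z, (1 - chi Ω p u) ∧
    ∑ u ∈ Finset.Ico a (a + M), ∏ p ∈ sprimes (2 * k + 2) z, (1 - chi Ω p u)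
      ≤ 3 * (M : ℝ) * ∏ p ∈ sprimes (2 * k + 2) z, (1 - dens Ω p) := by
  set P := sprimes (2 * k + 2) z with hP
  have hcard : ∀ p ∈ P, (Ω p).card ≤ k := fun p hp => by
    have h := mem_sprimes.mp hp
    exact hΩ p h.1 h.2.1 h.2.2
  have hmain := brun_hooley (Finset.Ico a (a + M)) (chi Ω) (dens Ω)
    (fun p => ((Ω p).card : ℝ)) M P
    (fun E hE => count_classes' Ω a M E fun p hp => (mem_sprimes.mp (hE hp)).1)
    (Nat.cast_nonneg _) (chi_nonneg Ω) (chi_le_one Ω) (fun p _ => dens_nonneg Ω p)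
    (fun p hp => by
      have := dens_le_half (hcard p hp) (mem_sprimes.mp hp).2.1
      linarith)
    (fun p _ => Nat.cast_nonneg _)
    (blockSet (2 * k + 2) z) (Finset.range (z + 1)) (bj k) (fun j _ => bj_even k j)
    (fun j _ => Finset.filter_subset _ _)
    (fun i _ j _ hij => by
      rw [Finset.disjoint_left]
      intro p hp hp'
      exact hij ((mem_blockSet.mp hp).2.symm.trans (mem_blockSet.mp hp').2))
    (epsj k) (fun j _ => epsj_nonneg k j) (fun j _ => block_E hΩ j) (sum_epsj k (z + 1))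
  have hR := prod_R hz hΩ (z + 1)
  have hV := V_lower hz hΩ
  have hVnn : 0 ≤ ∏ p ∈ P, (1 - dens Ω p) := Finset.prod_nonneg fun p hp => by
    have := dens_le_half (hcard p hp) (mem_sprimes.mp hp).2.1
    linarith
  have hM' : (z : ℝ) ^ (198 * k + 26) ≤ M := by exact_mod_cast hM
  have hMV : (z : ℝ) ^ (198 * k + 26) * ∏ p ∈ P, (1 - dens Ω p) ≤ M * ∏ p ∈ P, (1 - dens Ω p) :=
    mul_le_mul_of_nonneg_right hM' hVnn
  simp_rw [prod_blocks] at hmain
  constructor
  · have := hmain.1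
    linarith
  · have := hmain.2
    linarith

end

end Pool.Agent.Lib.Sieve
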