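import Mathlib

/-!
# Combinatorial part of the Brun-Hooley sieve

Weighted truncated inclusion-exclusion over finite sets of indices.
-/

set_option linter.unusedSectionVars false

namespace Pool.Agent.Lib.Sieve

open Finset

section

variable {ι : Type*} [DecidableEq ι]

/-- `poly c f Q = ∑_{D ⊆ Q} c D ∏_{p ∈ D} f p`. -/
def poly (c : Finset ι → ℝ) (f : ι → ℝ) (Q : Finset ι) : ℝ :=
  ∑ D ∈ Q.powerset, c D * ∏ p ∈ D, f p

/-- Coefficients of the inclusion-exclusion sum truncated at `b`. -/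
def cT (b : ℕ) (D : Finset ι) : ℝ := if D.card ≤ b then (-1) ^ D.card else 0

/-- Coefficients of the elementary symmetric sum of degree `m`. -/
def cE (m : ℕ) (D : Finset ι) : ℝ := if D.card = m then 1 else 0

/-- Coefficients of the truncated sum of all products. -/
def cA (m : ℕ) (D : Finset ι) : ℝ := if D.card ≤ m then 1 else 0

theorem poly_empty (c : Finset ι → ℝ) (f : ι → ℝ) : poly c f ∅ = c ∅ := by
  simp [poly]

theorem poly_insert (c : Finset ι → ℝ) (f : ι → ℝ) {Q : Finset ι} {p : ι} (hp : p ∉ Q) :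
    poly c f (insert p Q) = poly c f Q + f p * poly (fun D => c (insert p D)) f Q := by
  unfold poly
  rw [Finset.sum_powerset_insert hp, Finset.mul_sum]
  congr 1
  refine Finset.sum_congr rfl fun D hD => ?_
  have hpD : p ∉ D := fun h => hp (Finset.mem_powerset.mp hD h)
  rw [Finset.prod_insert hpD]
  ring

theorem poly_congr {c c' : Finset ι → ℝ} (f : ι → ℝ) {Q : Finset ι}
    (h : ∀ D ⊆ Q, c D = c' D) : poly c f Q = poly c' f Q := by
  unfold poly
  refine Finset.sum_congr rfl fun D hD => ?_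
  rw [h D (Finset.mem_powerset.mp hD)]

theorem poly_neg (c : Finset ι → ℝ) (f : ι → ℝ) (Q : Finset ι) :
    poly (fun D => - c D) f Q = - poly c f Q := by
  unfold poly
  rw [← Finset.sum_neg_distrib]
  refine Finset.sum_congr rfl fun D _ => by ring

theorem poly_add (c c' : Finset ι → ℝ) (f : ι → ℝ) (Q : Finset ι) :
    poly (fun D => c D + c' D) f Q = poly c f Q + poly c' f Q := by
  unfold poly
  rw [← Finset.sum_add_distrib]
  refine Finset.sum_congr rfl fun D _ => by ring

theorem poly_const_mul (a : ℝ) (c : Finset ι → ℝ) (f : ι → ℝ) (Q : Finset ι) :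
    poly (fun D => a * c D) f Q = a * poly c f Q := by
  unfold poly
  rw [Finset.mul_sum]
  refine Finset.sum_congr rfl fun D _ => by ring

theorem poly_nonneg {c : Finset ι → ℝ} {f : ι → ℝ} {Q : Finset ι} (hc : ∀ D, 0 ≤ c D)
    (hf : ∀ p ∈ Q, 0 ≤ f p) : 0 ≤ poly c f Q := by
  unfold poly
  refine Finset.sum_nonneg fun D hD => mul_nonneg (hc D) ?_
  exact Finset.prod_nonneg fun p hp => hf p (Finset.mem_powerset.mp hD hp)

theorem poly_mono {c c' : Finset ι → ℝ} {f : ι → ℝ} {Q : Finset ι} (hc : ∀ D, c D ≤ c' D)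
    (hf : ∀ p ∈ Q, 0 ≤ f p) : poly c f Q ≤ poly c' f Q := by
  unfold poly
  refine Finset.sum_le_sum fun D hD => mul_le_mul_of_nonneg_right (hc D) ?_
  exact Finset.prod_nonneg fun p hp => hf p (Finset.mem_powerset.mp hD hp)

theorem cT_insert_succ {b : ℕ} {D : Finset ι} {p : ι} (hp : p ∉ D) :
    cT (b + 1) (insert p D) = - cT b D := by
  unfold cT
  rw [Finset.card_insert_of_notMem hp]
  by_cases h : D.card ≤ b
  · rw [if_pos h, if_pos (by omega)]
    ring
  · rw [if_neg h, if_neg (by omega)]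
    simp

theorem cE_insert_succ {m : ℕ} {D : Finset ι} {p : ι} (hp : p ∉ D) :
    cE (m + 1) (insert p D) = cE m D := by
  unfold cE
  rw [Finset.card_insert_of_notMem hp]
  by_cases h : D.card = m
  · rw [if_pos h, if_pos (by omega)]
  · rw [if_neg h, if_neg (by omega)]

theorem polyT_zero (f : ι → ℝ) (Q : Finset ι) : poly (cT 0) f Q = 1 := by
  unfold poly
  rw [Finset.sum_eq_single ∅]
  · simp [cT]
  · intro D _ hD
    have : ¬ D.card ≤ 0 := by
      intro h
      exact hD (Finset.card_eq_zero.mp (by omega))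
    simp [cT, this]
  · intro h
    exact absurd (Finset.empty_mem_powerset Q) h

theorem polyT_insert (b : ℕ) (f : ι → ℝ) {Q : Finset ι} {p : ι} (hp : p ∉ Q) :
    poly (cT (b + 1)) f (insert p Q) = poly (cT (b + 1)) f Q - f p * poly (cT b) f Q := by
  rw [poly_insert _ _ hp]
  rw [poly_congr (c' := fun D => - cT b D) f fun D hD => cT_insert_succ fun h => hp (hD h)]
  rw [poly_neg]
  ring

theorem polyT_succ (b : ℕ) (f : ι → ℝ) (Q : Finset ι) :
    poly (cT (b + 1)) f Q = poly (cT b) f Q + (-1) ^ (b + 1) * poly (cE (b + 1)) f Q := by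
  rw [← poly_const_mul, ← poly_add]
  congr 1
  funext D
  unfold cT cE
  by_cases h1 : D.card ≤ b
  · rw [if_pos h1, if_pos (by omega), if_neg (by omega)]
    simp
  · by_cases h2 : D.card = b + 1
    · rw [if_neg h1, if_pos (by omega), if_pos h2, h2]
      ring
    · rw [if_neg h1, if_neg (by omega), if_neg h2]
      simp

/-- **Bonferroni inequalities**, weighted form. -/
theorem bonferroni (f : ι → ℝ) (Q : Finset ι) (h0 : ∀ p ∈ Q, 0 ≤ f p) (h1 : ∀ p ∈ Q, f p ≤ 1) :
    ∀ b : ℕ, 0 ≤ (-1) ^ b * (poly (cT b) f Q - ∏ p ∈ Q, (1 - f p)) := by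
  induction Q using Finset.induction_on with
  | empty =>
    intro b
    rw [poly_empty]
    simp [cT]
  | insert p Q hp ih =>
    have ih' := ih (fun q hq => h0 q (Finset.mem_insert_of_mem hq))
      (fun q hq => h1 q (Finset.mem_insert_of_mem hq))
    have hfp0 := h0 p (Finset.mem_insert_self p Q)
    have hfp1 := h1 p (Finset.mem_insert_self p Q)
    intro b
    cases b with
    | zero =>
      rw [polyT_zero]
      have : ∏ q ∈ insert p Q, (1 - f q) ≤ 1 := by
        apply Finset.prod_le_one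
        · intro q hq
          have := h1 q hq
          linarith
        · intro q hq
          have := h0 q hq
          linarith
      simp only [pow_zero, one_mul]
      linarith
    | succ b =>
      rw [polyT_insert b f hp, Finset.prod_insert hp]
      have i1 := ih' (b + 1)
      have i2 := mul_nonneg hfp0 (ih' b)
      have : (-1 : ℝ) ^ (b + 1) * (poly (cT (b + 1)) f Q - f p * poly (cT b) f Q
          - (1 - f p) * ∏ q ∈ Q, (1 - f q))
          = (-1) ^ (b + 1) * (poly (cT (b + 1)) f Q - ∏ q ∈ Q, (1 - f q))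
            + f p * ((-1) ^ b * (poly (cT b) f Q - ∏ q ∈ Q, (1 - f q))) := by
        rw [pow_succ]
        ring
      rw [this]
      linarith

theorem le_polyT_of_even {f : ι → ℝ} {Q : Finset ι} (h0 : ∀ p ∈ Q, 0 ≤ f p)
    (h1 : ∀ p ∈ Q, f p ≤ 1) {b : ℕ} (hb : Even b) :
    ∏ p ∈ Q, (1 - f p) ≤ poly (cT b) f Q := by
  have h := bonferroni f Q h0 h1 b
  rw [hb.neg_one_pow] at h
  linarith

theorem polyT_le_of_even {f : ι → ℝ} {Q : Finset ι} (h0 : ∀ p ∈ Q, 0 ≤ f p)
    (h1 : ∀ p ∈ Q, f p ≤ 1) {b : ℕ} (hb : Even b) :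
    poly (cT b) f Q ≤ ∏ p ∈ Q, (1 - f p) + poly (cE (b + 1)) f Q := by
  have h := bonferroni f Q h0 h1 (b + 1)
  have hodd : (-1 : ℝ) ^ (b + 1) = -1 := by
    rw [pow_succ, hb.neg_one_pow]
    ring
  rw [polyT_succ, hodd] at h
  linarith

/-- Rankin's trick for elementary symmetric sums. -/
theorem rankinE {f : ι → ℝ} {Q : Finset ι} (h0 : ∀ p ∈ Q, 0 ≤ f p) (m : ℕ) {l : ℝ} (hl : 0 ≤ l) :
    l ^ m * poly (cE m) f Q ≤ ∏ p ∈ Q, (1 + l * f p) := by
  rw [Finset.prod_one_add]
  unfold poly
  rw [Finset.mul_sum]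
  refine Finset.sum_le_sum fun D hD => ?_
  have hD' := Finset.mem_powerset.mp hD
  rw [Finset.prod_mul_distrib, Finset.prod_const]
  have hprod : 0 ≤ ∏ p ∈ D, f p := Finset.prod_nonneg fun p hp => h0 p (hD' hp)
  unfold cE
  by_cases h : D.card = m
  · rw [if_pos h, h]
    linarith
  · rw [if_neg h]
    have := mul_nonneg (pow_nonneg hl D.card) hprod
    linarith

/-- Rankin's trick for truncated sums. -/
theorem rankinA {f : ι → ℝ} {Q : Finset ι} (h0 : ∀ p ∈ Q, 0 ≤ f p) (m : ℕ) {X : ℝ} (hX : 1 ≤ X) :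
    poly (cA m) f Q ≤ X ^ m * ∏ p ∈ Q, (1 + f p / X) := by
  rw [Finset.prod_one_add]
  unfold poly
  rw [Finset.mul_sum]
  refine Finset.sum_le_sum fun D hD => ?_
  have hD' := Finset.mem_powerset.mp hD
  have hprod : 0 ≤ ∏ p ∈ D, f p := Finset.prod_nonneg fun p hp => h0 p (hD' hp)
  have hXpos : 0 < X := by linarith
  rw [Finset.prod_div_distrib, Finset.prod_const]
  unfold cA
  by_cases h : D.card ≤ m
  · rw [if_pos h, one_mul]
    obtain ⟨t, rfl⟩ := Nat.exists_eq_add_of_le h
    rw [pow_add]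
    have h1 : X ^ D.card * X ^ t * ((∏ p ∈ D, f p) / X ^ D.card) = X ^ t * ∏ p ∈ D, f p := by
      field_simp
    rw [h1]
    have h2 : (1 : ℝ) ≤ X ^ t := one_le_pow₀ hX
    nlinarith
  · rw [if_neg h, zero_mul]
    positivity

end

section

variable {κ : Type*} [DecidableEq κ]

/-- Hooley's telescoping inequality. -/
theorem prod_ge_telescope (J : Finset κ) (x y e : κ → ℝ) (hx : ∀ j ∈ J, 0 ≤ x j)
    (hxy : ∀ j ∈ J, x j ≤ y j) (he : ∀ j ∈ J, y j - x j ≤ e j) :
    ∏ j ∈ J, y j - ∑ l ∈ J, e l * ∏ j ∈ J.erase l, y j ≤ ∏ j ∈ J, x j := by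
  induction J using Finset.induction_on with
  | empty => simp
  | insert a J ha ih =>
    have ih' := ih (fun j hj => hx j (Finset.mem_insert_of_mem hj))
      (fun j hj => hxy j (Finset.mem_insert_of_mem hj))
      (fun j hj => he j (Finset.mem_insert_of_mem hj))
    have hxa := hx a (Finset.mem_insert_self a J)
    have hxya := hxy a (Finset.mem_insert_self a J)
    have hea := he a (Finset.mem_insert_self a J)
    have hy : ∀ j ∈ J, 0 ≤ y j := fun j hj =>
      (hx j (Finset.mem_insert_of_mem hj)).trans (hxy j (Finset.mem_insert_of_mem hj))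
    have hY : 0 ≤ ∏ j ∈ J, y j := Finset.prod_nonneg hy
    rw [Finset.prod_insert ha, Finset.prod_insert ha, Finset.sum_insert ha,
      Finset.erase_insert ha]
    have hsum : ∑ l ∈ J, e l * ∏ j ∈ (insert a J).erase l, y j
        = y a * ∑ l ∈ J, e l * ∏ j ∈ J.erase l, y j := by
      rw [Finset.mul_sum]
      refine Finset.sum_congr rfl fun l hl => ?_
      have hla : l ≠ a := fun h => ha (h ▸ hl)
      rw [Finset.erase_insert_of_ne hla.symm, Finset.prod_insert]
      · ring
      · intro h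
        exact ha (Finset.mem_of_mem_erase h)
    rw [hsum]
    set S := ∑ l ∈ J, e l * ∏ j ∈ J.erase l, y j with hS
    have hSnn : 0 ≤ S := by
      refine Finset.sum_nonneg fun l hl => mul_nonneg ?_ ?_
      · have h1 := hxy l (Finset.mem_insert_of_mem hl)
        have h2 := he l (Finset.mem_insert_of_mem hl)
        linarith
      · exact Finset.prod_nonneg fun j hj => hy j (Finset.mem_of_mem_erase hj)
    have h1 : (y a - x a) * ∏ j ∈ J, y j ≤ e a * ∏ j ∈ J, y j :=
      mul_le_mul_of_nonneg_right hea hY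
    have h2 : x a * S ≤ y a * S := mul_le_mul_of_nonneg_right hxya hSnn
    have h3 : x a * (∏ j ∈ J, y j - S) ≤ x a * ∏ j ∈ J, x j := mul_le_mul_of_nonneg_left ih' hxa
    nlinarith

theorem prod_add_ge (J : Finset κ) (r s : κ → ℝ) (hr : ∀ j ∈ J, 0 ≤ r j)
    (hs : ∀ j ∈ J, 0 ≤ s j) :
    ∏ j ∈ J, r j + ∑ l ∈ J, s l * ∏ j ∈ J.erase l, r j ≤ ∏ j ∈ J, (r j + s j) := by
  induction J using Finset.induction_on with
  | empty => simp
  | insert a J ha ih =>
    have ih' := ih (fun j hj => hr j (Finset.mem_insert_of_mem hj))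
      (fun j hj => hs j (Finset.mem_insert_of_mem hj))
    have hra := hr a (Finset.mem_insert_self a J)
    have hsa := hs a (Finset.mem_insert_self a J)
    rw [Finset.prod_insert ha, Finset.prod_insert ha, Finset.sum_insert ha,
      Finset.erase_insert ha]
    have hsum : ∑ l ∈ J, s l * ∏ j ∈ (insert a J).erase l, r j
        = r a * ∑ l ∈ J, s l * ∏ j ∈ J.erase l, r j := by
      rw [Finset.mul_sum]
      refine Finset.sum_congr rfl fun l hl => ?_
      have hla : l ≠ a := fun h => ha (h ▸ hl)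
      rw [Finset.erase_insert_of_ne hla.symm, Finset.prod_insert]
      · ring
      · intro h
        exact ha (Finset.mem_of_mem_erase h)
    rw [hsum]
    set S := ∑ l ∈ J, s l * ∏ j ∈ J.erase l, r j with hS
    have hSnn : 0 ≤ S := by
      refine Finset.sum_nonneg fun l hl => mul_nonneg (hs l (Finset.mem_insert_of_mem hl)) ?_
      exact Finset.prod_nonneg fun j hj =>
        hr j (Finset.mem_insert_of_mem (Finset.mem_of_mem_erase hj))
    have h1 : (r a + s a) * (∏ j ∈ J, r j + S) ≤ (r a + s a) * ∏ j ∈ J, (r j + s j) :=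
      mul_le_mul_of_nonneg_left ih' (by linarith)
    have h2 : 0 ≤ s a * S := mul_nonneg hsa hSnn
    nlinarith

end

end Pool.Agent.Lib.Sieve
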