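import Pool.Agent.Lib.Sieve.Combi

/-!
# The Brun-Hooley sieve, abstract form
-/

set_option linter.unusedSectionVars false

namespace Pool.Agent.Lib.Sieve

open Finset

section

variable {ι κ α : Type*} [DecidableEq ι] [DecidableEq κ]

/-- Sums over `U` of products of sieve polynomials, attached to disjoint blocks of primes. -/
theorem rep (U : Finset α) (χ : ι → α → ℝ) (g ω : ι → ℝ) (M : ℝ) (P : Finset ι)
    (hC : ∀ E ⊆ P, |∑ u ∈ U, ∏ p ∈ E, χ p u - M * ∏ p ∈ E, g p| ≤ ∏ p ∈ E, ω p)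
    (c : κ → Finset ι → ℝ) (Q : κ → Finset ι) (J : Finset κ)
    (hQ : ∀ j ∈ J, Q j ⊆ P) (hdisj : ∀ i ∈ J, ∀ j ∈ J, i ≠ j → Disjoint (Q i) (Q j)) :
    ∀ E ⊆ P, (∀ j ∈ J, Disjoint E (Q j)) →
      |∑ u ∈ U, (∏ j ∈ J, poly (c j) (fun p => χ p u) (Q j)) * ∏ p ∈ E, χ p u
        - M * (∏ j ∈ J, poly (c j) g (Q j)) * ∏ p ∈ E, g p|
      ≤ (∏ j ∈ J, poly (fun D => |c j D|) ω (Q j)) * ∏ p ∈ E, ω p := by
  induction J using Finset.induction_on with
  | empty =>
    intro E hE _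
    simpa using hC E hE
  | insert a J ha ih =>
    intro E hE hdE
    have ih' := ih (fun j hj => hQ j (Finset.mem_insert_of_mem hj))
      (fun i hi j hj hij => hdisj i (Finset.mem_insert_of_mem hi) j (Finset.mem_insert_of_mem hj) hij)
    -- expand the polynomial of the block `a`
    have key : ∀ D ∈ (Q a).powerset,
        |∑ u ∈ U, (∏ j ∈ J, poly (c j) (fun p => χ p u) (Q j)) * ∏ p ∈ D ∪ E, χ p u
          - M * (∏ j ∈ J, poly (c j) g (Q j)) * ∏ p ∈ D ∪ E, g p|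
        ≤ (∏ j ∈ J, poly (fun D => |c j D|) ω (Q j)) * ∏ p ∈ D ∪ E, ω p := by
      intro D hD
      have hD' := Finset.mem_powerset.mp hD
      apply ih'
      · exact Finset.union_subset (hD'.trans (hQ a (Finset.mem_insert_self a J))) hE
      · intro j hj
        rw [Finset.disjoint_union_left]
        refine ⟨?_, hdE j (Finset.mem_insert_of_mem hj)⟩
        have hne : a ≠ j := fun h => ha (h ▸ hj)
        exact Finset.disjoint_of_subset_left hD'
          (hdisj a (Finset.mem_insert_self a J) j (Finset.mem_insert_of_mem hj) hne)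
    have hDE : ∀ D ∈ (Q a).powerset, ∀ f : ι → ℝ,
        ∏ p ∈ D ∪ E, f p = (∏ p ∈ D, f p) * ∏ p ∈ E, f p := by
      intro D hD f
      apply Finset.prod_union
      exact Finset.disjoint_of_subset_left (Finset.mem_powerset.mp hD)
        (hdE a (Finset.mem_insert_self a J)).symm
    have e1 : ∑ u ∈ U, (∏ j ∈ insert a J, poly (c j) (fun p => χ p u) (Q j)) * ∏ p ∈ E, χ p u
        = ∑ D ∈ (Q a).powerset, c a D *
            ∑ u ∈ U, (∏ j ∈ J, poly (c j) (fun p => χ p u) (Q j)) * ∏ p ∈ D ∪ E, χ p u := by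
      simp_rw [Finset.mul_sum]
      rw [Finset.sum_comm]
      refine Finset.sum_congr rfl fun u _ => ?_
      rw [Finset.prod_insert ha]
      unfold poly
      rw [Finset.sum_mul, Finset.sum_mul]
      refine Finset.sum_congr rfl fun D hD => ?_
      rw [hDE D hD]
      ring
    have e2 : M * (∏ j ∈ insert a J, poly (c j) g (Q j)) * ∏ p ∈ E, g p
        = ∑ D ∈ (Q a).powerset, c a D *
            (M * (∏ j ∈ J, poly (c j) g (Q j)) * ∏ p ∈ D ∪ E, g p) := by
      rw [Finset.prod_insert ha]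
      unfold poly
      rw [Finset.sum_mul, Finset.mul_sum, Finset.sum_mul]
      refine Finset.sum_congr rfl fun D hD => ?_
      rw [hDE D hD]
      ring
    have e3 : (∏ j ∈ insert a J, poly (fun D => |c j D|) ω (Q j)) * ∏ p ∈ E, ω p
        = ∑ D ∈ (Q a).powerset, |c a D| *
            ((∏ j ∈ J, poly (fun D => |c j D|) ω (Q j)) * ∏ p ∈ D ∪ E, ω p) := by
      rw [Finset.prod_insert ha]
      unfold poly
      rw [Finset.sum_mul, Finset.sum_mul]
      refine Finset.sum_congr rfl fun D hD => ?_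
      rw [hDE D hD]
      ring
    rw [e1, e2, e3, ← Finset.sum_sub_distrib]
    refine (Finset.abs_sum_le_sum_abs _ _).trans (Finset.sum_le_sum fun D hD => ?_)
    rw [← mul_sub, abs_mul]
    exact mul_le_mul_of_nonneg_left (key D hD) (abs_nonneg _)

/-- The abstract Brun-Hooley sieve: upper and lower bound for the number (weighted) of `u ∈ U`
avoiding all the classes. -/
theorem brun_hooley (U : Finset α) (χ : ι → α → ℝ) (g ω : ι → ℝ) (M : ℝ) (P : Finset ι)
    (hC : ∀ E ⊆ P, |∑ u ∈ U, ∏ p ∈ E, χ p u - M * ∏ p ∈ E, g p| ≤ ∏ p ∈ E, ω p)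
    (hM : 0 ≤ M) (hχ0 : ∀ p u, 0 ≤ χ p u) (hχ1 : ∀ p u, χ p u ≤ 1)
    (hg0 : ∀ p ∈ P, 0 ≤ g p) (hg1 : ∀ p ∈ P, g p ≤ 1) (hω : ∀ p ∈ P, 0 ≤ ω p)
    (Q : κ → Finset ι) (J : Finset κ) (b : κ → ℕ) (hb : ∀ j ∈ J, Even (b j))
    (hQ : ∀ j ∈ J, Q j ⊆ P) (hdisj : ∀ i ∈ J, ∀ j ∈ J, i ≠ j → Disjoint (Q i) (Q j))
    (ε : κ → ℝ) (hε0 : ∀ j ∈ J, 0 ≤ ε j)
    (hε : ∀ j ∈ J, poly (cE (b j + 1)) g (Q j) ≤ ε j * ∏ p ∈ Q j, (1 - g p))
    (hεsum : ∑ j ∈ J, ε j ≤ 1 / 2) :
    M / 2 * ∏ j ∈ J, ∏ p ∈ Q j, (1 - g p) - ∏ j ∈ J, poly (cA (b j + 1)) ω (Q j)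
      ≤ ∑ u ∈ U, ∏ j ∈ J, ∏ p ∈ Q j, (1 - χ p u) ∧
    ∑ u ∈ U, ∏ j ∈ J, ∏ p ∈ Q j, (1 - χ p u)
      ≤ 2 * M * ∏ j ∈ J, ∏ p ∈ Q j, (1 - g p) + ∏ j ∈ J, poly (cA (b j + 1)) ω (Q j) := by
  -- abbreviations
  set V : κ → ℝ := fun j => ∏ p ∈ Q j, (1 - g p) with hV
  set Tj : κ → ℝ := fun j => poly (cT (b j)) g (Q j) with hT
  set Ej : κ → ℝ := fun j => poly (cE (b j + 1)) g (Q j) with hE
  set r : κ → ℝ := fun j => poly (fun D => |cT (b j) D|) ω (Q j) with hr
  set s : κ → ℝ := fun j => poly (fun D => |cE (b j + 1) D|) ω (Q j) with hs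
  have hVnn : ∀ j ∈ J, 0 ≤ V j := fun j hj =>
    Finset.prod_nonneg fun p hp => by
      have := hg1 p (hQ j hj hp)
      linarith
  have hVT : ∀ j ∈ J, V j ≤ Tj j := fun j hj =>
    le_polyT_of_even (fun p hp => hg0 p (hQ j hj hp)) (fun p hp => hg1 p (hQ j hj hp)) (hb j hj)
  have hTV : ∀ j ∈ J, Tj j ≤ (1 + ε j) * V j := by
    intro j hj
    have h1 := polyT_le_of_even (fun p hp => hg0 p (hQ j hj hp))
      (fun p hp => hg1 p (hQ j hj hp)) (hb j hj)
    have h2 := hε j hj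
    simp only [hT, hV] at *
    linarith
  have hTnn : ∀ j ∈ J, 0 ≤ Tj j := fun j hj => (hVnn j hj).trans (hVT j hj)
  have hrnn : ∀ j ∈ J, 0 ≤ r j := fun j hj =>
    poly_nonneg (fun D => abs_nonneg _) fun p hp => hω p (hQ j hj hp)
  have hsnn : ∀ j ∈ J, 0 ≤ s j := fun j hj =>
    poly_nonneg (fun D => abs_nonneg _) fun p hp => hω p (hQ j hj hp)
  have hrs : ∀ j ∈ J, r j + s j = poly (cA (b j + 1)) ω (Q j) := by
    intro j hj
    simp only [hr, hs]
    rw [← poly_add]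
    congr 1
    funext D
    unfold cT cE cA
    by_cases h1 : D.card ≤ b j
    · rw [if_pos h1, if_neg (by omega), if_pos (by omega)]
      simp
    · by_cases h2 : D.card = b j + 1
      · rw [if_neg h1, if_pos h2, if_pos (by omega)]
        simp
      · rw [if_neg h1, if_neg h2, if_neg (by omega)]
        simp
  have hR : ∏ j ∈ J, r j + ∑ l ∈ J, s l * ∏ j ∈ J.erase l, r j
      ≤ ∏ j ∈ J, poly (cA (b j + 1)) ω (Q j) := by
    refine (prod_add_ge J r s hrnn hsnn).trans (le_of_eq ?_)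
    exact Finset.prod_congr rfl hrs
  have hemp : ∀ j ∈ J, Disjoint (∅ : Finset ι) (Q j) := fun j _ => Finset.disjoint_empty_left _
  -- the main sum
  have main := rep U χ g ω M P hC (fun j => cT (b j)) Q J hQ hdisj ∅ (Finset.empty_subset _) hemp
  simp only [Finset.prod_empty, mul_one] at main
  have main' : |∑ u ∈ U, ∏ j ∈ J, poly (cT (b j)) (fun p => χ p u) (Q j) - M * ∏ j ∈ J, Tj j|
      ≤ ∏ j ∈ J, r j := main
  -- the correction sums
  have corr : ∀ l ∈ J,
      |∑ u ∈ U, poly (cE (b l + 1)) (fun p => χ p u) (Q l) *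
          ∏ j ∈ J.erase l, poly (cT (b j)) (fun p => χ p u) (Q j)
        - M * (Ej l * ∏ j ∈ J.erase l, Tj j)| ≤ s l * ∏ j ∈ J.erase l, r j := by
    intro l hl
    have h := rep U χ g ω M P hC (Function.update (fun j => cT (b j)) l (cE (b l + 1))) Q J hQ
      hdisj ∅ (Finset.empty_subset _) hemp
    simp only [Finset.prod_empty, mul_one] at h
    have hupd : ∀ F : κ → (Finset ι → ℝ) → ℝ,
        ∏ j ∈ J, F j (Function.update (fun j => cT (b j)) l (cE (b l + 1)) j)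
          = F l (cE (b l + 1)) * ∏ j ∈ J.erase l, F j (cT (b j)) := by
      intro F
      rw [← Finset.mul_prod_erase J _ hl]
      rw [Function.update_self]
      congr 1
      refine Finset.prod_congr rfl fun j hj => ?_
      rw [Function.update_of_ne (Finset.ne_of_mem_erase hj)]
    have h1 : ∀ u, ∏ j ∈ J, poly (Function.update (fun j => cT (b j)) l (cE (b l + 1)) j)
        (fun p => χ p u) (Q j) = poly (cE (b l + 1)) (fun p => χ p u) (Q l) *
          ∏ j ∈ J.erase l, poly (cT (b j)) (fun p => χ p u) (Q j) := fun u =>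
      hupd (fun j c => poly c (fun p => χ p u) (Q j))
    have h2 : ∏ j ∈ J, poly (Function.update (fun j => cT (b j)) l (cE (b l + 1)) j) g (Q j)
        = Ej l * ∏ j ∈ J.erase l, Tj j := hupd (fun j c => poly c g (Q j))
    have h3 : ∏ j ∈ J, poly (fun D =>
        |Function.update (fun j => cT (b j)) l (cE (b l + 1)) j D|) ω (Q j)
        = s l * ∏ j ∈ J.erase l, r j := hupd (fun j c => poly (fun D => |c D|) ω (Q j))
    simp_rw [h1] at h
    rw [h2, h3] at h
    exact h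
  have hcard : ∀ l ∈ J, Ej l * ∏ j ∈ J.erase l, Tj j ≤ ε l * ∏ j ∈ J, Tj j := by
    intro l hl
    rw [← Finset.mul_prod_erase J Tj hl, ← mul_assoc]
    apply mul_le_mul_of_nonneg_right
    · have h1 := hε l hl
      have h2 := mul_le_mul_of_nonneg_left (hVT l hl) (hε0 l hl)
      simp only [hE, hV] at *
      linarith
    · exact Finset.prod_nonneg fun j hj => hTnn j (Finset.mem_of_mem_erase hj)
  have hprodT : 0 ≤ ∏ j ∈ J, Tj j := Finset.prod_nonneg hTnn
  have hVT' : ∏ j ∈ J, V j ≤ ∏ j ∈ J, Tj j := Finset.prod_le_prod hVnn hVT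
  constructor
  · -- lower bound
    have hpt : ∀ u ∈ U, ∏ j ∈ J, poly (cT (b j)) (fun p => χ p u) (Q j)
        - ∑ l ∈ J, poly (cE (b l + 1)) (fun p => χ p u) (Q l) *
            ∏ j ∈ J.erase l, poly (cT (b j)) (fun p => χ p u) (Q j)
        ≤ ∏ j ∈ J, ∏ p ∈ Q j, (1 - χ p u) := by
      intro u _
      apply prod_ge_telescope
      · intro j _
        exact Finset.prod_nonneg fun p _ => by linarith [hχ1 p u]
      · intro j hj
        exact le_polyT_of_even (fun p _ => hχ0 p u) (fun p _ => hχ1 p u) (hb j hj)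
      · intro j hj
        have := polyT_le_of_even (f := fun p => χ p u) (Q := Q j) (fun p _ => hχ0 p u)
          (fun p _ => hχ1 p u) (hb j hj)
        linarith
    have hsum := Finset.sum_le_sum hpt
    rw [Finset.sum_sub_distrib, Finset.sum_comm] at hsum
    have h1 := (abs_le.mp main').1
    have h2 : ∑ l ∈ J, ∑ u ∈ U, poly (cE (b l + 1)) (fun p => χ p u) (Q l) *
          ∏ j ∈ J.erase l, poly (cT (b j)) (fun p => χ p u) (Q j)
        ≤ ∑ l ∈ J, (M * (ε l * ∏ j ∈ J, Tj j) + s l * ∏ j ∈ J.erase l, r j) := by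
      refine Finset.sum_le_sum fun l hl => ?_
      have h3 := (abs_le.mp (corr l hl)).2
      have h4 := mul_le_mul_of_nonneg_left (hcard l hl) hM
      linarith
    rw [Finset.sum_add_distrib, ← Finset.mul_sum, ← Finset.sum_mul] at h2
    have h5 : M * ((∑ l ∈ J, ε l) * ∏ j ∈ J, Tj j) ≤ M * (1 / 2 * ∏ j ∈ J, Tj j) :=
      mul_le_mul_of_nonneg_left (mul_le_mul_of_nonneg_right hεsum hprodT) hM
    have h6 : M / 2 * ∏ j ∈ J, V j ≤ M / 2 * ∏ j ∈ J, Tj j :=
      mul_le_mul_of_nonneg_left hVT' (by linarith)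
    simp only [hV] at h6
    linarith
  · -- upper bound
    have hpt : ∀ u ∈ U, ∏ j ∈ J, ∏ p ∈ Q j, (1 - χ p u)
        ≤ ∏ j ∈ J, poly (cT (b j)) (fun p => χ p u) (Q j) := by
      intro u _
      apply Finset.prod_le_prod
      · intro j _
        exact Finset.prod_nonneg fun p _ => by linarith [hχ1 p u]
      · intro j hj
        exact le_polyT_of_even (fun p _ => hχ0 p u) (fun p _ => hχ1 p u) (hb j hj)
    have hsum := Finset.sum_le_sum hpt
    have h1 := (abs_le.mp main').2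
    have h2 : ∏ j ∈ J, Tj j ≤ 2 * ∏ j ∈ J, V j := by
      have h3 : ∏ j ∈ J, Tj j ≤ ∏ j ∈ J, ((1 + ε j) * V j) := Finset.prod_le_prod hTnn hTV
      rw [Finset.prod_mul_distrib] at h3
      have h4 : ∏ j ∈ J, (1 + ε j) ≤ Real.exp (∑ j ∈ J, ε j) := by
        rw [Real.exp_sum]
        refine Finset.prod_le_prod (fun j hj => by linarith [hε0 j hj]) fun j _ => ?_
        have := Real.add_one_le_exp (ε j)
        linarith
      have h5 : Real.exp (∑ j ∈ J, ε j) ≤ Real.exp (1 / 2) := Real.exp_le_exp.mpr hεsum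
      have h6 : Real.exp (1 / 2) ≤ 2 := by
        have h7 : Real.exp (1 / 2) ^ 2 = Real.exp 1 := by
          rw [← Real.exp_nat_mul]
          norm_num
        have h8 := Real.exp_one_lt_d9
        have h9 : 0 < Real.exp (1 / 2) := Real.exp_pos _
        nlinarith
      have h10 : 0 ≤ ∏ j ∈ J, V j := Finset.prod_nonneg hVnn
      calc ∏ j ∈ J, Tj j ≤ (∏ j ∈ J, (1 + ε j)) * ∏ j ∈ J, V j := h3
        _ ≤ 2 * ∏ j ∈ J, V j := mul_le_mul_of_nonneg_right (by linarith) h10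
    have h3 : M * ∏ j ∈ J, Tj j ≤ M * (2 * ∏ j ∈ J, V j) := mul_le_mul_of_nonneg_left h2 hM
    have h4 : ∏ j ∈ J, r j ≤ ∏ j ∈ J, poly (cA (b j + 1)) ω (Q j) := by
      refine le_trans ?_ hR
      have : 0 ≤ ∑ l ∈ J, s l * ∏ j ∈ J.erase l, r j :=
        Finset.sum_nonneg fun l hl => mul_nonneg (hsnn l hl)
          (Finset.prod_nonneg fun j hj => hrnn j (Finset.mem_of_mem_erase hj))
      linarith
    simp only [hV] at h3
    linarith

end

end Pool.Agent.Lib.Sieve
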